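import Mathlib

/-!
# Square roots modulo `s^(2^j) - c` in a field whose units are squares
-/

set_option autoImplicit false

open Polynomial

namespace Pool.Agent.H19.QBR

/-- A valuation with values in the integers such that all units are squares. -/
structure SqVal (L : Type*) [Field L] (w : L → ℤ) : Prop where
  /-- multiplicativity -/
  mul : ∀ x y : L, x ≠ 0 → y ≠ 0 → w (x * y) = w x + w y
  /-- units are squares -/
  sq : ∀ x : L, x ≠ 0 → w x = 0 → ∃ y, x = y ^ 2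
  /-- the characteristic is not two -/
  two : (2 : L) ≠ 0

namespace SqVal

variable {L : Type*} [Field L] {w : L → ℤ} (hw : SqVal L w)

include hw

theorem one : w 1 = 0 := by
  have := hw.mul 1 1 one_ne_zero one_ne_zero
  rw [mul_one] at this
  omega

theorem pow (x : L) (hx : x ≠ 0) (n : ℕ) : w (x ^ n) = n * w x := by
  induction n with
  | zero => simp [hw.one]
  | succ n ih =>
    rw [pow_succ, hw.mul _ _ (pow_ne_zero n hx) hx, ih]
    push_cast; ring

theorem inv (x : L) (hx : x ≠ 0) : w x⁻¹ = - w x := by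
  have := hw.mul x x⁻¹ hx (inv_ne_zero hx)
  rw [mul_inv_cancel₀ hx, hw.one] at this
  omega

theorem div (x y : L) (hx : x ≠ 0) (hy : y ≠ 0) : w (x / y) = w x - w y := by
  rw [div_eq_mul_inv, hw.mul _ _ hx (inv_ne_zero hy), hw.inv _ hy]
  ring

theorem zpow (x : L) (hx : x ≠ 0) (n : ℤ) : w (x ^ n) = n * w x := by
  obtain ⟨m, rfl | rfl⟩ := n.eq_nat_or_neg
  · rw [zpow_natCast, hw.pow x hx]
  · rw [zpow_neg, zpow_natCast, hw.inv _ (pow_ne_zero m hx), hw.pow x hx]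
    ring

theorem neg_one : w (-1) = 0 := by
  have h := hw.mul (-1) (-1) (by simp) (by simp)
  have h1 : (-1 : L) * -1 = 1 := by ring
  rw [h1, hw.one] at h
  omega

theorem even_sq (u p : L) (hu : u ≠ 0) (hp : p ≠ 0) (m : ℤ) (h : w u = 2 * m * w p) :
    ∃ y, u = y ^ 2 := by
  have hq : (p ^ m) ^ 2 ≠ 0 := pow_ne_zero 2 (zpow_ne_zero m hp)
  have h1 : w (u / (p ^ m) ^ 2) = 0 := by
    rw [hw.div _ _ hu hq, hw.pow _ (zpow_ne_zero m hp), hw.zpow _ hp, h]
    push_cast; ring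
  obtain ⟨y, hy⟩ := hw.sq _ (div_ne_zero hu hq) h1
  refine ⟨y * p ^ m, ?_⟩
  rw [mul_pow, ← hy]
  field_simp

/-- The quotient of two nonsquares is a square. -/
theorem div_sq (x y : L) (hx0 : x ≠ 0) (hy0 : y ≠ 0) (hx : ¬ ∃ z, x = z ^ 2)
    (hy : ¬ ∃ z, y = z ^ 2) : ∃ z, x / y = z ^ 2 := by
  have hwx : w x ≠ 0 := fun h => hx (hw.sq x hx0 h)
  obtain ⟨a', b', ha, hb, hbez⟩ : ∃ a' b' : ℤ, w x = a' * (Int.gcd (w x) (w y) : ℤ) ∧
      w y = b' * (Int.gcd (w x) (w y) : ℤ) ∧ True := by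
    obtain ⟨a', ha⟩ := Int.gcd_dvd_left (w x) (w y)
    obtain ⟨b', hb⟩ := Int.gcd_dvd_right (w x) (w y)
    exact ⟨a', b', by rw [mul_comm]; exact ha, by rw [mul_comm]; exact hb, trivial⟩
  set g : ℤ := (Int.gcd (w x) (w y) : ℤ) with hg
  set u := Int.gcdA (w x) (w y)
  set v := Int.gcdB (w x) (w y)
  have hguv : g = w x * u + w y * v := Int.gcd_eq_gcd_ab (w x) (w y)
  have hp0 : x ^ u * y ^ v ≠ 0 := mul_ne_zero (zpow_ne_zero _ hx0) (zpow_ne_zero _ hy0)
  have hwp : w (x ^ u * y ^ v) = g := by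
    rw [hw.mul _ _ (zpow_ne_zero _ hx0) (zpow_ne_zero _ hy0), hw.zpow _ hx0, hw.zpow _ hy0, hguv]
    ring
  have hodd : ∀ (z : L) (k : ℤ), z ≠ 0 → w z = k * g → (¬ ∃ q, z = q ^ 2) → Odd k := by
    intro z k hz0 hz hns
    by_contra hk
    rw [Int.not_odd_iff_even] at hk
    obtain ⟨m, rfl⟩ := hk
    exact hns (hw.even_sq z _ hz0 hp0 m (by rw [hwp, hz]; ring))
  obtain ⟨m, hm⟩ := hodd x a' hx0 ha hx
  obtain ⟨n, hn⟩ := hodd y b' hy0 hb hy
  refine hw.even_sq (x / y) _ (div_ne_zero hx0 hy0) hp0 (m - n) ?_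
  rw [hw.div _ _ hx0 hy0, hwp, ha, hb, hm, hn]
  ring

theorem exists_neg_one_root (i : ℕ) : ∃ x : L, x ^ 2 ^ i = -1 := by
  induction i with
  | zero => exact ⟨-1, by simp⟩
  | succ i ih =>
    obtain ⟨x, hx⟩ := ih
    have hx0 : x ≠ 0 := by
      rintro rfl
      rw [zero_pow (by positivity)] at hx
      exact zero_ne_one (by linear_combination -hx)
    have hwx : w x = 0 := by
      have h := hw.pow x hx0 (2 ^ i)
      rw [hx, hw.neg_one] at h
      have h2 : ((2 ^ i : ℕ) : ℤ) ≠ 0 := by positivity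
      rcases mul_eq_zero.mp h.symm with h3 | h3
      · exact absurd h3 h2
      · exact h3
    obtain ⟨y, hy⟩ := hw.sq x hx0 hwx
    exact ⟨y, by rw [pow_succ', pow_mul, ← hy, hx]⟩

theorem exists_primitive (i : ℕ) : ∃ z : L, IsPrimitiveRoot z (2 ^ i) := by
  cases i with
  | zero => exact ⟨1, by simp⟩
  | succ i =>
    obtain ⟨x, hx⟩ := hw.exists_neg_one_root i
    have h1 : ¬ x ^ 2 ^ i = 1 := by
      rw [hx]
      intro h
      exact hw.two (by linear_combination -h)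
    have h2 : x ^ 2 ^ (i + 1) = 1 := by
      rw [pow_succ, pow_mul, hx]; ring
    have : Fact (Nat.Prime 2) := ⟨Nat.prime_two⟩
    refine ⟨x, IsPrimitiveRoot.iff_orderOf.mpr (orderOf_eq_prime_pow h1 h2)⟩

theorem exists_root_nonsq (n : ℕ) : ∀ c : L, c ≠ 0 → w c ≠ 0 → (w c).natAbs ≤ n →
    ∃ (i : ℕ) (d : L), c = d ^ 2 ^ i ∧ ¬ ∃ y, d = y ^ 2 := by
  induction n with
  | zero =>
    intro c _ h h2
    omega
  | succ n ih =>
    intro c hc h h2
    by_cases hsq : ∃ y, c = y ^ 2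
    · obtain ⟨y, rfl⟩ := hsq
      have hy0 : y ≠ 0 := by
        rintro rfl
        exact hc (by simp)
      have hwy := hw.pow y hy0 2
      push_cast at hwy
      obtain ⟨i, d, hd, hns⟩ := ih y hy0 (by omega) (by omega)
      exact ⟨i + 1, d, by rw [hd, ← pow_mul, ← pow_succ], hns⟩
    · exact ⟨0, c, by simp, hsq⟩

/-- For `w c ≠ 0` every element becomes a square modulo `s^(2^j) - c` for large `j`. -/
theorem exists_sq_mod (c : L) (hc : c ≠ 0) (hwc : w c ≠ 0) :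
    ∃ j0 : ℕ, ∀ j ≥ j0, ∀ g : L, g ≠ 0 → ∃ R : L[X], (X ^ 2 ^ j - C c : L[X]) ∣ R ^ 2 - C g := by
  obtain ⟨i, d, hd, hns⟩ := hw.exists_root_nonsq _ c hc hwc le_rfl
  have hd0 : d ≠ 0 := by
    rintro rfl
    exact hns ⟨0, by simp⟩
  refine ⟨i + 1, fun j hj g hg => ?_⟩
  by_cases hgs : ∃ y, g = y ^ 2
  · obtain ⟨y, rfl⟩ := hgs
    exact ⟨C y, by simp⟩
  obtain ⟨z, hz⟩ := hw.exists_primitive i
  have hz0 : z ≠ 0 := hz.ne_zero (by positivity)
  have hwz : w z = 0 := by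
    have h := hw.pow z hz0 (2 ^ i)
    rw [hz.pow_eq_one, hw.one] at h
    have h2 : ((2 ^ i : ℕ) : ℤ) ≠ 0 := by positivity
    rcases mul_eq_zero.mp h.symm with h3 | h3
    · exact absurd h3 h2
    · exact h3
  have hE0 : ∀ k : ℕ, z ^ k * d ≠ 0 := fun k => mul_ne_zero (pow_ne_zero k hz0) hd0
  have hEns : ∀ k : ℕ, ¬ ∃ y, z ^ k * d = y ^ 2 := by
    rintro k ⟨y, hy⟩
    obtain ⟨u, hu⟩ := hw.sq (z ^ k) (pow_ne_zero k hz0) (by rw [hw.pow z hz0, hwz, mul_zero])
    have hu0 : u ≠ 0 := by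
      rintro rfl
      exact pow_ne_zero k hz0 (by rw [hu]; simp)
    apply hns
    refine ⟨y / u, ?_⟩
    rw [hu] at hy
    rw [div_pow, ← hy]
    field_simp
  have hroot : ∀ k : ℕ, ∃ r, g / (z ^ k * d) = r ^ 2 := fun k =>
    hw.div_sq g _ hg (hE0 k) hgs (hEns k)
  choose r hr using hroot
  classical
  set W : L[X] := Lagrange.interpolate (Finset.range (2 ^ i)) (fun k => z ^ k * d) r with hW
  have hinj : Set.InjOn (fun k : ℕ => z ^ k * d) (Finset.range (2 ^ i) : Finset ℕ) := by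
    intro a ha b hb hab
    have hab' : z ^ a = z ^ b := mul_right_cancel₀ hd0 hab
    exact hz.pow_inj (Finset.mem_range.mp (Finset.mem_coe.mp ha))
      (Finset.mem_range.mp (Finset.mem_coe.mp hb)) hab'
  have hWev : ∀ k ∈ Finset.range (2 ^ i), W.eval (z ^ k * d) = r k := by
    intro k hk
    exact Lagrange.eval_interpolate_at_node r hinj hk
  set P : L[X] := X * W ^ 2 - C g with hP
  have hPdvd : (X ^ 2 ^ i - C c : L[X]) ∣ P := by
    rw [X_pow_sub_C_eq_prod hz (by positivity) hd.symm]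
    apply Finset.prod_dvd_of_coprime
    · intro a ha b hb hab
      apply Polynomial.isCoprime_X_sub_C_of_isUnit_sub
      rw [isUnit_iff_ne_zero, sub_ne_zero]
      intro h
      exact hab (hinj ha hb h)
    · intro k hk
      rw [dvd_iff_isRoot, IsRoot, hP]
      simp only [eval_sub, eval_mul, eval_pow, eval_X, eval_C]
      rw [hWev k hk, ← hr k]
      field_simp [hE0 k]
      ring
  have hcomp := map_dvd (compRingHom (X ^ 2 ^ (j - i) : L[X])) hPdvd
  simp only [coe_compRingHom_apply] at hcomp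
  refine ⟨X ^ 2 ^ (j - i - 1) * W.comp (X ^ 2 ^ (j - i)), ?_⟩
  have e1 : (X ^ 2 ^ i - C c : L[X]).comp (X ^ 2 ^ (j - i)) = X ^ 2 ^ j - C c := by
    rw [sub_comp, X_pow_comp, C_comp, ← pow_mul, ← pow_add]
    congr 3
    omega
  have e2 : P.comp (X ^ 2 ^ (j - i)) =
      (X ^ 2 ^ (j - i - 1) * W.comp (X ^ 2 ^ (j - i))) ^ 2 - C g := by
    rw [hP, sub_comp, mul_comp, X_comp, pow_comp, C_comp, mul_pow, ← pow_mul, ← pow_succ]
    congr 4
    omega
  rw [← e1, ← e2]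
  exact hcomp

end SqVal

end Pool.Agent.H19.QBR
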