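import Pool.Agent.H19.QBR.Good

/-!
# Quadratic forms given by matrices
-/

set_option autoImplicit false

open Polynomial

namespace Pool.Agent.H19.QBR

section

variable {R : Type*} [CommRing R] {r : ℕ}

/-- the quadratic form with the coefficients `a i j` -/
def qf (a : Fin r → Fin r → R) (y : Fin r → R) : R := ∑ i, ∑ j, a i j * y i * y j

/-- its polar form -/
def bf (a : Fin r → Fin r → R) (y z : Fin r → R) : R :=
  ∑ i, ∑ j, a i j * (y i * z j + z i * y j)

theorem qf_add (a : Fin r → Fin r → R) (y z : Fin r → R) :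
    qf a (y + z) = qf a y + qf a z + bf a y z := by
  unfold qf bf
  rw [← Finset.sum_add_distrib, ← Finset.sum_add_distrib]
  refine Finset.sum_congr rfl fun i _ => ?_
  rw [← Finset.sum_add_distrib, ← Finset.sum_add_distrib]
  refine Finset.sum_congr rfl fun j _ => ?_
  simp only [Pi.add_apply]
  ring

theorem qf_smul (a : Fin r → Fin r → R) (c : R) (y : Fin r → R) :
    qf a (c • y) = c ^ 2 * qf a y := by
  unfold qf
  rw [Finset.mul_sum]
  refine Finset.sum_congr rfl fun i _ => ?_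
  rw [Finset.mul_sum]
  refine Finset.sum_congr rfl fun j _ => ?_
  simp only [Pi.smul_apply, smul_eq_mul]
  ring

theorem bf_comm (a : Fin r → Fin r → R) (y z : Fin r → R) : bf a y z = bf a z y := by
  unfold bf
  refine Finset.sum_congr rfl fun i _ => Finset.sum_congr rfl fun j _ => ?_
  ring

theorem bf_self (a : Fin r → Fin r → R) (y : Fin r → R) : bf a y y = 2 * qf a y := by
  unfold bf qf
  rw [Finset.mul_sum]
  refine Finset.sum_congr rfl fun i _ => ?_
  rw [Finset.mul_sum]
  refine Finset.sum_congr rfl fun j _ => ?_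
  ring

theorem bf_add (a : Fin r → Fin r → R) (y z w : Fin r → R) :
    bf a y (z + w) = bf a y z + bf a y w := by
  unfold bf
  rw [← Finset.sum_add_distrib]
  refine Finset.sum_congr rfl fun i _ => ?_
  rw [← Finset.sum_add_distrib]
  refine Finset.sum_congr rfl fun j _ => ?_
  simp only [Pi.add_apply]
  ring

theorem bf_smul (a : Fin r → Fin r → R) (c : R) (y z : Fin r → R) :
    bf a y (c • z) = c * bf a y z := by
  unfold bf
  rw [Finset.mul_sum]
  refine Finset.sum_congr rfl fun i _ => ?_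
  rw [Finset.mul_sum]
  refine Finset.sum_congr rfl fun j _ => ?_
  simp only [Pi.smul_apply, smul_eq_mul]
  ring

theorem bf_add' (a : Fin r → Fin r → R) (y z w : Fin r → R) :
    bf a (y + z) w = bf a y w + bf a z w := by
  rw [bf_comm, bf_add, bf_comm a w y, bf_comm a w z]

theorem bf_smul' (a : Fin r → Fin r → R) (c : R) (y z : Fin r → R) :
    bf a (c • y) z = c * bf a y z := by
  rw [bf_comm, bf_smul, bf_comm]

theorem map_qf {R' : Type*} [CommRing R'] (φ : R →+* R') (a : Fin r → Fin r → R)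
    (y : Fin r → R) : φ (qf a y) = qf (fun i j => φ (a i j)) (fun i => φ (y i)) := by
  unfold qf
  simp only [map_sum, map_mul]

theorem map_bf {R' : Type*} [CommRing R'] (φ : R →+* R') (a : Fin r → Fin r → R)
    (y z : Fin r → R) :
    φ (bf a y z) = bf (fun i j => φ (a i j)) (fun i => φ (y i)) (fun i => φ (z i)) := by
  unfold bf
  simp only [map_sum, map_mul, map_add]

theorem qf_three (a : Fin r → Fin r → R) (e f g : Fin r → R) (x y z : R) (h1 : bf a e f = 0)
    (h2 : bf a e g = 0) (h3 : bf a f g = 0) :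
    qf a (x • e + y • f + z • g) = qf a e * x ^ 2 + qf a f * y ^ 2 + qf a g * z ^ 2 := by
  rw [qf_add, qf_add, bf_add', qf_smul, qf_smul, qf_smul, bf_smul', bf_smul, bf_smul', bf_smul,
    bf_smul', bf_smul, h1, h2, h3]
  ring

/-- Three orthogonal vectors or an isotropic vector. -/
theorem exists_orth [IsDomain R] (h2 : (2 : R) ≠ 0) (hr : 3 ≤ r) (a : Fin r → Fin r → R) :
    (∃ y : Fin r → R, y ≠ 0 ∧ qf a y = 0) ∨
      ∃ e f g : Fin r → R, qf a e ≠ 0 ∧ qf a f ≠ 0 ∧ qf a g ≠ 0 ∧
        bf a e f = 0 ∧ bf a e g = 0 ∧ bf a f g = 0 := by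
  by_cases h : ∃ y : Fin r → R, y ≠ 0 ∧ qf a y = 0
  · exact Or.inl h
  right
  push Not at h
  have hb : ∀ y : Fin r → R, y ≠ 0 → bf a y y ≠ 0 := fun y hy => by
    rw [bf_self]; exact mul_ne_zero h2 (h y hy)
  let i0 : Fin r := ⟨0, by omega⟩
  let i1 : Fin r := ⟨1, by omega⟩
  let i2 : Fin r := ⟨2, by omega⟩
  have h01 : i1 ≠ i0 := by simp [i0, i1]
  have h02 : i2 ≠ i0 := by simp [i0, i2]
  have h12 : i2 ≠ i1 := by simp [i1, i2]
  set e : Fin r → R := Pi.single i0 1 with he
  set u : Fin r → R := Pi.single i1 1 with hu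
  set v : Fin r → R := Pi.single i2 1 with hv
  have e0 : e ≠ 0 := by
    intro h0
    have := congrFun h0 i0
    simp [he] at this
  set f : Fin r → R := bf a e e • u + (- bf a e u) • e with hf
  have f0 : f ≠ 0 := by
    intro h0
    have h1 := congrFun h0 i1
    simp only [hf, Pi.add_apply, Pi.smul_apply, smul_eq_mul, he, hu, Pi.single_eq_same,
      Pi.single_eq_of_ne h01, mul_one, mul_zero, add_zero, Pi.zero_apply] at h1
    exact hb e e0 (by rw [he]; exact h1)
  have hef : bf a e f = 0 := by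
    rw [hf, bf_add, bf_smul, bf_smul]
    ring
  set g : Fin r → R := (bf a e e * bf a f f) • v + (- (bf a f f * bf a e v)) • e +
    (- (bf a e e * bf a f v)) • f with hg
  have f2 : f i2 = 0 := by
    simp only [hf, Pi.add_apply, Pi.smul_apply, smul_eq_mul, he, hu,
      Pi.single_eq_of_ne h02, Pi.single_eq_of_ne h12, mul_zero, add_zero]
  have g0 : g ≠ 0 := by
    intro h0
    have h1 := congrFun h0 i2
    simp only [hg, Pi.add_apply, Pi.smul_apply, smul_eq_mul, f2, mul_zero, add_zero,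
      Pi.zero_apply] at h1
    simp only [he, hv, Pi.single_eq_same, Pi.single_eq_of_ne h02, mul_one, mul_zero,
      add_zero] at h1
    exact mul_ne_zero (hb e e0) (hb f f0) h1
  have heg : bf a e g = 0 := by
    rw [hg, bf_add, bf_add, bf_smul, bf_smul, bf_smul, hef]
    ring
  have hfg : bf a f g = 0 := by
    rw [hg, bf_add, bf_add, bf_smul, bf_smul, bf_smul, bf_comm a f e, hef]
    ring
  exact ⟨e, f, g, h e e0, h f f0, h g g0, hef, heg, hfg⟩

/-- A zero of the diagonal form gives an isotropic vector. -/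
theorem isotropic_of_sol [IsDomain R] (h2 : (2 : R) ≠ 0) (a : Fin r → Fin r → R)
    (e f g : Fin r → R) (he : qf a e ≠ 0) (hf : qf a f ≠ 0) (hg : qf a g ≠ 0)
    (hef : bf a e f = 0) (heg : bf a e g = 0) (hfg : bf a f g = 0)
    (hs : Sol (qf a e) (qf a f) (qf a g)) : ∃ y : Fin r → R, y ≠ 0 ∧ qf a y = 0 := by
  obtain ⟨x, y, z, h, hsol⟩ := hs
  refine ⟨x • e + y • f + z • g, ?_, by rw [qf_three a e f g x y z hef heg hfg, hsol]⟩
  intro h0
  have hb0 : ∀ w : Fin r → R, bf a (x • e + y • f + z • g) w = 0 := by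
    intro w
    rw [h0]
    unfold bf
    simp
  have k1 := hb0 e
  have k2 := hb0 f
  have k3 := hb0 g
  rw [bf_add', bf_add', bf_smul', bf_smul', bf_smul', bf_self, bf_comm a f e, bf_comm a g e, hef,
    heg] at k1
  rw [bf_add', bf_add', bf_smul', bf_smul', bf_smul', bf_self, bf_comm a g f, hef, hfg] at k2
  rw [bf_add', bf_add', bf_smul', bf_smul', bf_smul', bf_self, heg, hfg] at k3
  rcases h with h | h | h
  · exact mul_ne_zero h (mul_ne_zero h2 he) (by linear_combination k1)
  · exact mul_ne_zero h (mul_ne_zero h2 hf) (by linear_combination k2)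
  · exact mul_ne_zero h (mul_ne_zero h2 hg) (by linear_combination k3)

end

section

variable {K : Type*} [NontriviallyNormedField K] [IsUltrametricDist K] [CompleteSpace K]

theorem Base.two_ne_zero (hK : Base K) : (2 : K) ≠ 0 := by
  intro h
  have := hK.two
  rw [h, norm_zero] at this
  exact zero_ne_one this

/-- Quadratic forms in at least three variables over the base field are isotropic. -/
theorem exists_isotropic (hK : Base K) {r : ℕ} (hr : 3 ≤ r) (a : Fin r → Fin r → K) :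
    ∃ y : Fin r → K, y ≠ 0 ∧ qf a y = 0 := by
  obtain ⟨t, h0, h1, ht⟩ := hK.disc
  obtain ⟨w, hw, -⟩ := exists_sqVal hK t h0 h1 ht K
  rcases exists_orth hK.two_ne_zero hr a with h | ⟨e, f, g, he, hf, hg, hef, heg, hfg⟩
  · exact h
  · exact isotropic_of_sol hK.two_ne_zero a e f g he hf hg hef heg hfg (hw.sol _ _ _ he hf hg)

theorem exists_X_pow_mul {p : K[X]} (hp : p ≠ 0) :
    ∃ (e : ℕ) (q : K[X]), q.coeff 0 ≠ 0 ∧ p = X ^ e * q := by
  obtain ⟨q, hq, hq2⟩ := exists_eq_pow_rootMultiplicity_mul_and_not_dvd p hp 0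
  rw [C_0, sub_zero] at hq hq2
  refine ⟨_, q, ?_, hq⟩
  rwa [Ne, ← X_dvd_iff]

/-- The conic with arbitrary nonzero polynomial coefficients has a point after a substitution. -/
theorem exists_sol' (hK : Base K) : ∃ t : K, t ≠ 0 ∧ ∀ a b c : K[X], a ≠ 0 → b ≠ 0 → c ≠ 0 →
    ∃ M j : ℕ, 1 ≤ j ∧ Sol (a.comp (sub t M j)) (b.comp (sub t M j)) (c.comp (sub t M j)) := by
  obtain ⟨t, h0, h1, ht⟩ := hK.disc
  refine ⟨t, h0, fun a b c ha hb hc => ?_⟩
  obtain ⟨i, a', ha', rfl⟩ := exists_X_pow_mul ha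
  obtain ⟨k, b', hb', rfl⟩ := exists_X_pow_mul hb
  obtain ⟨l, c', hc', rfl⟩ := exists_X_pow_mul hc
  obtain ⟨E, hE⟩ := (good_all hK t h0 h1 ht _ a' b' c' ha' hb' hc' le_rfl).mono
    (Q := fun M j => 1 ≤ j ∧
      Sol (a'.comp (sub t M j)) (b'.comp (sub t M j)) (c'.comp (sub t M j)))
    (fun M j hj h => ⟨hj, h⟩)
  obtain ⟨M, hM⟩ : ∃ M : ℕ, 2 * M ∉ E := by
    by_contra hcon
    push Not at hcon
    have hinf : (Set.range fun M : ℕ => 2 * M).Infinite :=
      Set.infinite_range_of_injective fun a b h => by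
        have : 2 * a = 2 * b := h
        omega
    apply hinf
    refine E.finite_toSet.subset ?_
    rintro _ ⟨M, rfl⟩
    exact hcon M
  obtain ⟨j0, hj0⟩ := hE (2 * M) hM
  obtain ⟨hj1, hsol⟩ := hj0 j0 le_rfl
  refine ⟨2 * M, j0, hj1, ?_⟩
  obtain ⟨d, hd0, hd⟩ : ∃ d : K[X], d ≠ 0 ∧ sub t (2 * M) j0 = d * d := by
    refine ⟨C (t ^ M) * X ^ 2 ^ (j0 - 1), ?_, ?_⟩
    · exact mul_ne_zero (C_ne_zero.mpr (pow_ne_zero M h0)) (pow_ne_zero _ X_ne_zero)
    · unfold sub
      have e1 : (t ^ (2 * M)) = t ^ M * t ^ M := by rw [← pow_add]; congr 1; ring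
      have e2 : 2 ^ j0 = 2 ^ (j0 - 1) + 2 ^ (j0 - 1) := by
        obtain ⟨i, rfl⟩ : ∃ i, j0 = i + 1 := ⟨j0 - 1, by omega⟩
        rw [Nat.add_sub_cancel, pow_succ]; ring
      rw [e1, C_mul, e2, pow_add]
      ring
  have key : ∀ (n : ℕ) (p : K[X]), (X ^ n * p).comp (sub t (2 * M) j0) =
      d ^ n * d ^ n * p.comp (sub t (2 * M) j0) := by
    intro n p
    rw [mul_comp, X_pow_comp, hd, mul_pow]
  rw [key, key, key]
  have s1 := hsol.sq_mul (pow_ne_zero i hd0)
  have s2 := s1.rotate.sq_mul (pow_ne_zero k hd0)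
  have s3 := s2.rotate.sq_mul (pow_ne_zero l hd0)
  exact s3.rotate

/-- A quadratic form over `K[z]` in at least three variables has a zero after a substitution. -/
theorem exists_isotropic_sub (hK : Base K) : ∃ t : K, t ≠ 0 ∧ ∀ (r : ℕ), 3 ≤ r →
    ∀ a : Fin r → Fin r → K[X], ∃ M j : ℕ, 1 ≤ j ∧ ∃ y : Fin r → K[X], y ≠ 0 ∧
      qf (fun i j' => (a i j').comp (sub t M j)) y = 0 := by
  obtain ⟨t, h0, ht⟩ := exists_sol' hK
  refine ⟨t, h0, fun r hr a => ?_⟩
  have h2 : (2 : K[X]) ≠ 0 := by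
    have : (2 : K[X]) = C 2 := (map_ofNat C 2).symm
    rw [this]
    exact C_ne_zero.mpr hK.two_ne_zero
  have hinj : ∀ (M j : ℕ) (p : K[X]), p ≠ 0 → p.comp (sub t M j) ≠ 0 := by
    intro M j p hp h
    rcases comp_eq_zero_iff.mp h with h3 | ⟨-, h3⟩
    · exact hp h3
    · have h4 := sub_natDegree h0 M j
      rw [h3, natDegree_C] at h4
      exact absurd h4 (by positivity)
  rcases exists_orth h2 hr a with ⟨y, hy, hq⟩ | ⟨e, f, g, he, hf, hg, hef, heg, hfg⟩
  · refine ⟨0, 1, le_rfl, fun i => (y i).comp (sub t 0 1), ?_, ?_⟩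
    · intro h
      apply hy
      funext i
      by_contra hne
      exact hinj 0 1 (y i) hne (congrFun h i)
    · have := map_qf (compRingHom (sub t 0 1)) a y
      rw [hq, map_zero] at this
      exact this.symm
  · obtain ⟨M, j, hj, hs⟩ := ht _ _ _ he hf hg
    refine ⟨M, j, hj, ?_⟩
    have me := map_qf (compRingHom (sub t M j)) a e
    have mf := map_qf (compRingHom (sub t M j)) a f
    have mg := map_qf (compRingHom (sub t M j)) a g
    have mef := map_bf (compRingHom (sub t M j)) a e f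
    have meg := map_bf (compRingHom (sub t M j)) a e g
    have mfg := map_bf (compRingHom (sub t M j)) a f g
    simp only [coe_compRingHom_apply] at me mf mg mef meg mfg
    rw [hef, zero_comp] at mef
    rw [heg, zero_comp] at meg
    rw [hfg, zero_comp] at mfg
    refine isotropic_of_sol h2 _ _ _ _ ?_ ?_ ?_ mef.symm meg.symm mfg.symm ?_
    · rw [← me]; exact hinj M j _ he
    · rw [← mf]; exact hinj M j _ hf
    · rw [← mg]; exact hinj M j _ hg
    · rw [← me, ← mf, ← mg]; exact hs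

end

end Pool.Agent.H19.QBR
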