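import Pool.Agent.H19.QBR.Legendre

/-!
# Conics over the base field with the substitution have points
-/

set_option autoImplicit false

open Polynomial

namespace Pool.Agent.H19.QBR

section

variable {K : Type*} [NontriviallyNormedField K] [IsUltrametricDist K] [CompleteSpace K]

/-- The three polynomials give a conic with a point after the substitution. -/
def Good (t : K) (a b c : K[X]) : Prop :=
  Ev (fun M j => Sol (a.comp (sub t M j)) (b.comp (sub t M j)) (c.comp (sub t M j)))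

theorem Good.rotate {t : K} {a b c : K[X]} (h : Good t a b c) : Good t b c a :=
  h.mono fun _ _ _ h => h.rotate

theorem Good.sq_mul {t : K} {a b c d : K[X]} (h : Good t a b c) (hd : d.coeff 0 ≠ 0) :
    Good t (d * d * a) b c := by
  refine h.mono fun M j _ h => ?_
  rw [mul_comp, mul_comp]
  exact h.sq_mul (comp_sub_ne_zero t M j d hd)

theorem Good.common {t : K} {a b c d : K[X]} (h : Good t a b (d * c)) (hd : d.coeff 0 ≠ 0) :
    Good t (d * a) (d * b) c := by
  refine h.mono fun M j _ h => ?_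
  rw [mul_comp] at h ⊢
  rw [mul_comp]
  exact h.common (comp_sub_ne_zero t M j d hd)

theorem good_base (hK : Base K) (t : K) (h0 : t ≠ 0) (h1 : ‖t‖ < 1)
    (ht : ∀ x : K, x ≠ 0 → ∃ n : ℤ, ‖x‖ = ‖t‖ ^ n) (a b c : K[X])
    (ha : a.coeff 0 ≠ 0) (hb : b.coeff 0 ≠ 0) (hc : c.coeff 0 ≠ 0)
    (sa : Squarefree a) (sb : Squarefree b) (sc : Squarefree c)
    (hab : IsCoprime a b) (hbc : IsCoprime b c) (hca : IsCoprime c a) : Good t a b c := by
  have g1 := sqM_squarefree hK t h0 h1 ht b c a sa ha hab hca.symm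
  have g2 := sqM_squarefree hK t h0 h1 ht c a b sb hb hbc hab.symm
  have g3 := sqM_squarefree hK t h0 h1 ht a b c sc hc hca hbc.symm
  obtain ⟨w, hw, -⟩ := exists_sqVal hK t h0 h1 ht K
  refine (g1.and (g2.and g3)).mono ?_
  rintro M j hj ⟨h1, h2, h3⟩
  obtain ⟨i, rfl⟩ : ∃ i, j = i + 1 := ⟨j - 1, by omega⟩
  have hnd : ∀ p : K[X], (p.comp (sub t M (i + 1))).natDegree = 2 * (p.natDegree * 2 ^ i) := by
    intro p
    rw [natDegree_comp, sub_natDegree h0, pow_succ]
    ring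
  exact legendre (fun a b c => hw.sol a b c) _ _ _ _ _ _ (hnd a) (hnd b) (hnd c)
    (comp_sub_ne_zero t M _ a ha) (comp_sub_ne_zero t M _ b hb) (comp_sub_ne_zero t M _ c hc)
    (hab.map (compRingHom (sub t M (i + 1)))) (hbc.map (compRingHom (sub t M (i + 1))))
    (hca.map (compRingHom (sub t M (i + 1)))) h1 h2 h3

theorem natDegree_pos_of_not_isUnit {d : K[X]} (hd : d ≠ 0) (h : ¬ IsUnit d) :
    0 < d.natDegree := by
  rw [Nat.pos_iff_ne_zero]
  intro h2
  apply h
  rw [isUnit_iff_degree_eq_zero, degree_eq_natDegree hd, h2]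
  rfl

/-- a step of the induction: a polynomial that is not squarefree -/
theorem good_step_sq {t : K} {a b c : K[X]} (ha : a.coeff 0 ≠ 0) (hns : ¬ Squarefree a)
    (ih : ∀ a' : K[X], a'.coeff 0 ≠ 0 → a'.natDegree < a.natDegree → Good t a' b c) :
    Good t a b c := by
  unfold Squarefree at hns
  push Not at hns
  obtain ⟨d, ⟨e, he⟩, hd⟩ := hns
  subst he
  rw [mul_coeff_zero, mul_coeff_zero] at ha
  have hd0 : d.coeff 0 ≠ 0 := fun h => ha (by rw [h]; ring)
  have he0 : e.coeff 0 ≠ 0 := fun h => ha (by rw [h]; ring)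
  have hdn : d ≠ 0 := by rintro rfl; simp at hd0
  have hen : e ≠ 0 := by rintro rfl; simp at he0
  have hpos := natDegree_pos_of_not_isUnit hdn hd
  apply Good.sq_mul _ hd0
  apply ih e he0
  rw [natDegree_mul (mul_ne_zero hdn hdn) hen, natDegree_mul hdn hdn]
  omega

/-- a step of the induction: two polynomials with a common factor -/
theorem good_step_common {t : K} {a b c : K[X]} (ha : a.coeff 0 ≠ 0) (hb : b.coeff 0 ≠ 0)
    (hc : c.coeff 0 ≠ 0) (hab : ¬ IsCoprime a b)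
    (ih : ∀ a' b' c' : K[X], a'.coeff 0 ≠ 0 → b'.coeff 0 ≠ 0 → c'.coeff 0 ≠ 0 →
      a'.natDegree + b'.natDegree + c'.natDegree < a.natDegree + b.natDegree + c.natDegree →
      Good t a' b' c') :
    Good t a b c := by
  rw [← isRelPrime_iff_isCoprime] at hab
  unfold IsRelPrime at hab
  push Not at hab
  obtain ⟨d, ⟨a', rfl⟩, ⟨b', rfl⟩, hd⟩ := hab
  rw [mul_coeff_zero] at ha hb
  have hd0 : d.coeff 0 ≠ 0 := left_ne_zero_of_mul ha
  have ha0 : a'.coeff 0 ≠ 0 := right_ne_zero_of_mul ha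
  have hb0 : b'.coeff 0 ≠ 0 := right_ne_zero_of_mul hb
  have hdn : d ≠ 0 := by rintro rfl; simp at hd0
  have han : a' ≠ 0 := by rintro rfl; simp at ha0
  have hbn : b' ≠ 0 := by rintro rfl; simp at hb0
  have hcn : c ≠ 0 := by rintro rfl; simp at hc
  have hpos := natDegree_pos_of_not_isUnit hdn hd
  apply Good.common _ hd0
  apply ih a' b' (d * c) ha0 hb0 (by rw [mul_coeff_zero]; exact mul_ne_zero hd0 hc)
  rw [natDegree_mul hdn han, natDegree_mul hdn hbn, natDegree_mul hdn hcn]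
  omega

theorem good_all (hK : Base K) (t : K) (h0 : t ≠ 0) (h1 : ‖t‖ < 1)
    (ht : ∀ x : K, x ≠ 0 → ∃ n : ℤ, ‖x‖ = ‖t‖ ^ n) (n : ℕ) : ∀ (a b c : K[X]),
    a.coeff 0 ≠ 0 → b.coeff 0 ≠ 0 → c.coeff 0 ≠ 0 →
    a.natDegree + b.natDegree + c.natDegree ≤ n → Good t a b c := by
  induction n using Nat.strong_induction_on with
  | _ n ih =>
    have key : ∀ a b c : K[X], a.coeff 0 ≠ 0 → b.coeff 0 ≠ 0 → c.coeff 0 ≠ 0 →
        a.natDegree + b.natDegree + c.natDegree ≤ n → (¬ Squarefree a ∨ ¬ IsCoprime a b) →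
        Good t a b c := by
      intro a b c ha hb hc hn h
      rcases h with h | h
      · apply good_step_sq ha h
        intro a' ha' hlt
        exact ih _ (by omega) a' b c ha' hb hc le_rfl
      · apply good_step_common ha hb hc h
        intro a' b' c' ha' hb' hc' hlt
        exact ih _ (by omega) a' b' c' ha' hb' hc' le_rfl
    intro a b c ha hb hc hn
    by_cases g1 : ¬ Squarefree a ∨ ¬ IsCoprime a b
    · exact key a b c ha hb hc hn g1
    by_cases g2 : ¬ Squarefree b ∨ ¬ IsCoprime b c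
    · exact (key b c a hb hc ha (by omega) g2).rotate.rotate
    by_cases g3 : ¬ Squarefree c ∨ ¬ IsCoprime c a
    · exact (key c a b hc ha hb (by omega) g3).rotate
    push Not at g1 g2 g3
    exact good_base hK t h0 h1 ht a b c ha hb hc g1.1 g2.1 g3.1 g1.2 g2.2 g3.2

/-- For some exponents the conic has a point. -/
theorem exists_sol (hK : Base K) : ∃ t : K, t ≠ 0 ∧ ∀ a b c : K[X],
    a.coeff 0 ≠ 0 → b.coeff 0 ≠ 0 → c.coeff 0 ≠ 0 →
    ∃ M j : ℕ, 1 ≤ j ∧ Sol (a.comp (sub t M j)) (b.comp (sub t M j)) (c.comp (sub t M j)) := by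
  obtain ⟨t, h0, h1, ht⟩ := hK.disc
  refine ⟨t, h0, fun a b c ha hb hc => ?_⟩
  obtain ⟨E, hE⟩ := (good_all hK t h0 h1 ht _ a b c ha hb hc le_rfl).mono
    (Q := fun M j => 1 ≤ j ∧
      Sol (a.comp (sub t M j)) (b.comp (sub t M j)) (c.comp (sub t M j)))
    (fun M j hj h => ⟨hj, h⟩)
  obtain ⟨M, hM⟩ := Infinite.exists_notMem_finset E
  obtain ⟨j0, hj0⟩ := hE M hM
  exact ⟨M, j0, hj0 j0 le_rfl⟩

end

end Pool.Agent.H19.QBR
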