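import Pool.Agent.H19.QBR.Push

/-!
# The theorem of Legendre over the polynomial ring
-/

set_option autoImplicit false

open Polynomial

namespace Pool.Agent.H19.QBR

/-- The ternary form with the coefficients `a`, `b`, `c` has a nontrivial zero. -/
def Sol {R : Type*} [CommRing R] (a b c : R) : Prop :=
  ∃ x y z : R, (x ≠ 0 ∨ y ≠ 0 ∨ z ≠ 0) ∧ a * x ^ 2 + b * y ^ 2 + c * z ^ 2 = 0

theorem Sol.rotate {R : Type*} [CommRing R] {a b c : R} (h : Sol a b c) : Sol b c a := by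
  obtain ⟨x, y, z, h1, h2⟩ := h
  exact ⟨y, z, x, by tauto, by linear_combination h2⟩

theorem Sol.swap {R : Type*} [CommRing R] {a b c : R} (h : Sol a b c) : Sol b a c := by
  obtain ⟨x, y, z, h1, h2⟩ := h
  exact ⟨y, x, z, by tauto, by linear_combination h2⟩

theorem Sol.sq_mul {R : Type*} [CommRing R] [IsDomain R] {a b c d : R} (h : Sol a b c)
    (hd : d ≠ 0) : Sol (d * d * a) b c := by
  obtain ⟨x, y, z, h1, h2⟩ := h
  refine ⟨x, d * y, d * z, ?_, by linear_combination d ^ 2 * h2⟩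
  rcases h1 with h | h | h
  · exact Or.inl h
  · exact Or.inr (Or.inl (mul_ne_zero hd h))
  · exact Or.inr (Or.inr (mul_ne_zero hd h))

theorem Sol.common {R : Type*} [CommRing R] [IsDomain R] {a b c d : R} (h : Sol a b (d * c))
    (hd : d ≠ 0) : Sol (d * a) (d * b) c := by
  obtain ⟨x, y, z, h1, h2⟩ := h
  refine ⟨x, y, d * z, ?_, by linear_combination d * h2⟩
  rcases h1 with h | h | h
  · exact Or.inl h
  · exact Or.inr (Or.inl h)
  · exact Or.inr (Or.inr (mul_ne_zero hd h))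

/-- Diagonal ternary forms over a field whose units are squares are isotropic. -/
theorem SqVal.sol {L : Type*} [Field L] {w : L → ℤ} (hw : SqVal L w) (a b c : L) (ha : a ≠ 0)
    (hb : b ≠ 0) (hc : c ≠ 0) : Sol a b c := by
  obtain ⟨i, hi⟩ := hw.sq (-1) (by simp) hw.neg_one
  have key : ∀ x y : L, x ≠ 0 → y ≠ 0 → ((∃ z, x = z ^ 2) ↔ (∃ z, y = z ^ 2)) →
      ∃ u : L, x * u ^ 2 + y = 0 := by
    intro x y hx hy hxy
    obtain ⟨z, hz⟩ : ∃ z, y / x = z ^ 2 := by
      by_cases h : ∃ z, x = z ^ 2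
      · obtain ⟨s, hs⟩ := h
        obtain ⟨r, hr⟩ := hxy.mp ⟨s, hs⟩
        exact ⟨r / s, by rw [hs, hr, div_pow]⟩
      · exact hw.div_sq y x hy hx (fun h2 => h (hxy.mpr h2)) h
    refine ⟨i * z, ?_⟩
    rw [mul_pow, ← hi, ← hz]
    field_simp
    ring
  by_cases h1 : (∃ z, a = z ^ 2) ↔ (∃ z, b = z ^ 2)
  · obtain ⟨u, hu⟩ := key a b ha hb h1
    exact ⟨u, 1, 0, by simp, by linear_combination hu⟩
  by_cases h2 : (∃ z, b = z ^ 2) ↔ (∃ z, c = z ^ 2)
  · obtain ⟨u, hu⟩ := key b c hb hc h2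
    exact ⟨0, u, 1, by simp, by linear_combination hu⟩
  have h3 : (∃ z, a = z ^ 2) ↔ (∃ z, c = z ^ 2) := by tauto
  obtain ⟨u, hu⟩ := key a c ha hc h3
  exact ⟨u, 0, 1, by simp, by linear_combination hu⟩

theorem dvd_aux {K : Type*} [Field K] {α β γ ρ x y z : K[X]} (h : α ∣ β * ρ ^ 2 + γ)
    (h2 : α ∣ y - ρ * z) : α ∣ α * x ^ 2 + β * y ^ 2 + γ * z ^ 2 := by
  obtain ⟨q, hq⟩ := h
  obtain ⟨r, hr⟩ := h2
  exact ⟨x ^ 2 + β * (y + ρ * z) * r + q * z ^ 2, by
    linear_combination z ^ 2 * hq + β * (y + ρ * z) * hr⟩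

theorem natDegree_le_of_mem_degreeLT {K : Type*} [Field K] {n : ℕ} {p : K[X]}
    (h : p ∈ degreeLT K (n + 1)) : p.natDegree ≤ n := by
  rw [mem_degreeLT, degree_lt_iff_coeff_zero] at h
  rw [natDegree_le_iff_coeff_eq_zero]
  intro N hN
  exact h N hN

theorem finrank_degreeLT' {K : Type*} [Field K] (n : ℕ) :
    Module.finrank K (degreeLT K n) = n := by
  rw [(degreeLTEquiv K n).finrank_eq, Module.finrank_fin_fun]

theorem finrank_adjoinRoot' {K : Type*} [Field K] {f : K[X]} (hf : f ≠ 0) :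
    Module.finrank K (AdjoinRoot f) = f.natDegree := by
  rw [(AdjoinRoot.powerBasis hf).finrank, AdjoinRoot.powerBasis_dim]

/-- The theorem of Legendre over `K[s]`. -/
theorem legendre {K : Type*} [Field K]
    (hiso : ∀ a b c : K, a ≠ 0 → b ≠ 0 → c ≠ 0 → Sol a b c) (α β γ : K[X]) (a b c : ℕ)
    (ha : α.natDegree = 2 * a) (hb : β.natDegree = 2 * b) (hc : γ.natDegree = 2 * c)
    (hα : α ≠ 0) (hβ : β ≠ 0) (hγ : γ ≠ 0) (hαβ : IsCoprime α β) (hβγ : IsCoprime β γ)
    (hγα : IsCoprime γ α) (h1 : SqM α β γ) (h2 : SqM β γ α) (h3 : SqM γ α β) : Sol α β γ := by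
  obtain ⟨ρ, h1⟩ := h1
  obtain ⟨σ, h2⟩ := h2
  obtain ⟨τ, h3⟩ := h3
  -- the linear map
  let V := degreeLT K (b + c + 1) × degreeLT K (a + c + 1) × degreeLT K (a + b + 1)
  let W := (AdjoinRoot α × AdjoinRoot β × AdjoinRoot γ) × (K × K × K)
  let pX : V →ₗ[K] K[X] := (degreeLT K (b + c + 1)).subtype ∘ₗ LinearMap.fst K _ _
  let pY : V →ₗ[K] K[X] := (degreeLT K (a + c + 1)).subtype ∘ₗ LinearMap.fst K _ _ ∘ₗ
    LinearMap.snd K _ _
  let pZ : V →ₗ[K] K[X] := (degreeLT K (a + b + 1)).subtype ∘ₗ LinearMap.snd K _ _ ∘ₗ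
    LinearMap.snd K _ _
  let Λ1 : V →ₗ[K] AdjoinRoot α :=
    (AdjoinRoot.mkₐ α).toLinearMap ∘ₗ (pY - LinearMap.mulLeft K ρ ∘ₗ pZ)
  let Λ2 : V →ₗ[K] AdjoinRoot β :=
    (AdjoinRoot.mkₐ β).toLinearMap ∘ₗ (pZ - LinearMap.mulLeft K σ ∘ₗ pX)
  let Λ3 : V →ₗ[K] AdjoinRoot γ :=
    (AdjoinRoot.mkₐ γ).toLinearMap ∘ₗ (pX - LinearMap.mulLeft K τ ∘ₗ pY)
  let Λ : V →ₗ[K] W := (Λ1.prod (Λ2.prod Λ3)).prod
    ((lcoeff K (b + c) ∘ₗ pX).prod ((lcoeff K (a + c) ∘ₗ pY).prod (lcoeff K (a + b) ∘ₗ pZ)))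
  have hfA : FiniteDimensional K (AdjoinRoot α) := (AdjoinRoot.powerBasis hα).finite
  have hfB : FiniteDimensional K (AdjoinRoot β) := (AdjoinRoot.powerBasis hβ).finite
  have hfC : FiniteDimensional K (AdjoinRoot γ) := (AdjoinRoot.powerBasis hγ).finite
  have hfd : ∀ n, FiniteDimensional K (degreeLT K n) := fun n =>
    (degreeLTEquiv K n).symm.finiteDimensional
  have hf1 := hfd (b + c + 1)
  have hf2 := hfd (a + c + 1)
  have hf3 := hfd (a + b + 1)
  have hdim : Module.finrank K V = Module.finrank K W := by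
    simp only [V, W, Module.finrank_prod, finrank_degreeLT', finrank_adjoinRoot' hα,
      finrank_adjoinRoot' hβ, finrank_adjoinRoot' hγ, Module.finrank_self, ha, hb, hc]
    ring
  -- the criterion
  have key : ∀ v : V, v ≠ 0 → Λ1 v = 0 → Λ2 v = 0 → Λ3 v = 0 →
      α.leadingCoeff * (pX v).coeff (b + c) ^ 2 + β.leadingCoeff * (pY v).coeff (a + c) ^ 2 +
        γ.leadingCoeff * (pZ v).coeff (a + b) ^ 2 = 0 → Sol α β γ := by
    intro v hv hv1 hv2 hv3 hv4
    have dX : (pX v).natDegree ≤ b + c := natDegree_le_of_mem_degreeLT v.1.2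
    have dY : (pY v).natDegree ≤ a + c := natDegree_le_of_mem_degreeLT v.2.1.2
    have dZ : (pZ v).natDegree ≤ a + b := natDegree_le_of_mem_degreeLT v.2.2.2
    have e1 : α ∣ pY v - ρ * pZ v := AdjoinRoot.mk_eq_zero.mp hv1
    have e2 : β ∣ pZ v - σ * pX v := AdjoinRoot.mk_eq_zero.mp hv2
    have e3 : γ ∣ pX v - τ * pY v := AdjoinRoot.mk_eq_zero.mp hv3
    set F := α * pX v ^ 2 + β * pY v ^ 2 + γ * pZ v ^ 2 with hF
    have f1 : α ∣ F := dvd_aux h1 e1
    have f2 : β ∣ F := by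
      have := dvd_aux (x := pY v) h2 e2
      rw [hF]
      convert this using 1
      ring
    have f3 : γ ∣ F := by
      have := dvd_aux (x := pZ v) h3 e3
      rw [hF]
      convert this using 1
      ring
    have f4 : α * β * γ ∣ F := by
      apply IsCoprime.mul_dvd _ (hαβ.mul_dvd f1 f2) f3
      exact IsCoprime.mul_left hγα.symm hβγ
    have hdeg : F.natDegree ≤ 2 * (a + b + c) := by
      rw [hF]
      refine natDegree_add_le_of_degree_le (natDegree_add_le_of_degree_le ?_ ?_) ?_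
      · refine natDegree_mul_le.trans ?_
        have := natDegree_pow_le_of_le 2 dX
        omega
      · refine natDegree_mul_le.trans ?_
        have := natDegree_pow_le_of_le 2 dY
        omega
      · refine natDegree_mul_le.trans ?_
        have := natDegree_pow_le_of_le 2 dZ
        omega
    have hcoef : F.coeff (2 * (a + b + c)) = 0 := by
      rw [← hv4, hF, coeff_add, coeff_add]
      congr 1
      · congr 1
        · have : 2 * (a + b + c) = 2 * a + (b + c) * 2 := by ring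
          rw [this, coeff_mul_add_eq_of_natDegree_le ha.le
            (by rw [mul_comm]; exact natDegree_pow_le_of_le 2 dX), leadingCoeff, ha, mul_comm _ 2,
            ← coeff_pow_of_natDegree_le dX, mul_comm 2]
        · have : 2 * (a + b + c) = 2 * b + (a + c) * 2 := by ring
          rw [this, coeff_mul_add_eq_of_natDegree_le hb.le
            (by rw [mul_comm]; exact natDegree_pow_le_of_le 2 dY), leadingCoeff, hb, mul_comm _ 2,
            ← coeff_pow_of_natDegree_le dY, mul_comm 2]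
      · have : 2 * (a + b + c) = 2 * c + (a + b) * 2 := by ring
        rw [this, coeff_mul_add_eq_of_natDegree_le hc.le
          (by rw [mul_comm]; exact natDegree_pow_le_of_le 2 dZ), leadingCoeff, hc, mul_comm _ 2,
          ← coeff_pow_of_natDegree_le dZ, mul_comm 2]
    have hF0 : F = 0 := by
      by_contra hne
      have h5 := natDegree_le_of_dvd f4 hne
      rw [natDegree_mul (mul_ne_zero hα hβ) hγ, natDegree_mul hα hβ, ha, hb, hc] at h5
      have h6 : F.natDegree = 2 * (a + b + c) := by omega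
      rw [← h6] at hcoef
      exact hne (leadingCoeff_eq_zero.mp hcoef)
    refine ⟨pX v, pY v, pZ v, ?_, hF0⟩
    by_contra hcon
    push Not at hcon
    apply hv
    obtain ⟨c1, c2, c3⟩ := hcon
    exact Prod.ext (Subtype.ext c1) (Prod.ext (Subtype.ext c2) (Subtype.ext c3))
  by_cases hinj : Function.Injective Λ
  · have hsurj := (LinearMap.injective_iff_surjective_of_finrank_eq_finrank hdim).mp hinj
    obtain ⟨x, y, z, hxyz, hsol⟩ := hiso α.leadingCoeff β.leadingCoeff γ.leadingCoeff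
      (leadingCoeff_ne_zero.mpr hα) (leadingCoeff_ne_zero.mpr hβ) (leadingCoeff_ne_zero.mpr hγ)
    obtain ⟨v, hv⟩ := hsurj ((0, 0, 0), (x, y, z))
    have g1 : Λ1 v = 0 := congrArg (fun q => q.1.1) hv
    have g2 : Λ2 v = 0 := congrArg (fun q => q.1.2.1) hv
    have g3 : Λ3 v = 0 := congrArg (fun q => q.1.2.2) hv
    have g4 : (pX v).coeff (b + c) = x := congrArg (fun q => q.2.1) hv
    have g5 : (pY v).coeff (a + c) = y := congrArg (fun q => q.2.2.1) hv
    have g6 : (pZ v).coeff (a + b) = z := congrArg (fun q => q.2.2.2) hv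
    refine key v ?_ g1 g2 g3 (by rw [g4, g5, g6]; exact hsol)
    rintro rfl
    simp only [map_zero, coeff_zero] at g4 g5 g6
    rcases hxyz with h | h | h
    · exact h g4.symm
    · exact h g5.symm
    · exact h g6.symm
  · rw [← LinearMap.ker_eq_bot, Submodule.eq_bot_iff] at hinj
    push Not at hinj
    obtain ⟨v, hv, hv0⟩ := hinj
    rw [LinearMap.mem_ker] at hv
    have g1 : Λ1 v = 0 := congrArg (fun q => q.1.1) hv
    have g2 : Λ2 v = 0 := congrArg (fun q => q.1.2.1) hv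
    have g3 : Λ3 v = 0 := congrArg (fun q => q.1.2.2) hv
    have g4 : (pX v).coeff (b + c) = 0 := congrArg (fun q => q.2.1) hv
    have g5 : (pY v).coeff (a + c) = 0 := congrArg (fun q => q.2.2.1) hv
    have g6 : (pZ v).coeff (a + b) = 0 := congrArg (fun q => q.2.2.2) hv
    exact key v hv0 g1 g2 g3 (by rw [g4, g5, g6]; ring)

end Pool.Agent.H19.QBR
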