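import Pool.Agent.H19.QBR.Form

/-!
# Rational curves in the fibres, and homogenisation
-/

set_option autoImplicit false

open Polynomial

namespace Pool.Agent.H19.QBR

section

variable {K : Type*} [Field K] {r : ℕ}

theorem qf_three' {R : Type*} [CommRing R] (a : Fin r → Fin r → R) (e f g : Fin r → R)
    (x y z : R) : qf a (x • e + y • f + z • g) = qf a e * x ^ 2 + qf a f * y ^ 2 +
      qf a g * z ^ 2 + x * y * bf a e f + x * z * bf a e g + y * z * bf a f g := by
  rw [qf_add, qf_add, bf_add', qf_smul, qf_smul, qf_smul, bf_smul', bf_smul, bf_smul', bf_smul,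
    bf_smul', bf_smul]
  ring

/-- Two points of the quadric are joined by a rational curve in it. -/
def FL (a : Fin r → Fin r → K) (v w : Fin r → K) : Prop :=
  ∃ e : Fin r → K[X], qf (fun i j => C (a i j)) e = 0 ∧
    (∃ α : K, α ≠ 0 ∧ (fun i => (e i).eval 0) = α • v) ∧
    (∃ β : K, β ≠ 0 ∧ (fun i => (e i).eval 1) = β • w)

theorem qf_C (a : Fin r → Fin r → K) (v : Fin r → K) :
    qf (fun i j => C (a i j)) (fun i => C (v i)) = C (qf a v) := (map_qf C a v).symm

theorem bf_C (a : Fin r → Fin r → K) (v w : Fin r → K) :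
    bf (fun i j => C (a i j)) (fun i => C (v i)) (fun i => C (w i)) = C (bf a v w) :=
  (map_bf C a v w).symm

theorem FL.line {a : Fin r → Fin r → K} {v w : Fin r → K} (hv : qf a v = 0) (hw : qf a w = 0)
    (h : bf a v w = 0) : FL a v w := by
  refine ⟨(1 - X : K[X]) • (fun i => C (v i)) + (0 : K[X]) • (fun i => C (v i)) +
    (X : K[X]) • (fun i => C (w i)), ?_, ⟨1, one_ne_zero, ?_⟩, ⟨1, one_ne_zero, ?_⟩⟩
  · rw [qf_three', qf_C, qf_C, bf_C, bf_C, hv, hw, h]
    simp
  · funext i
    simp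
  · funext i
    simp

theorem exists_orthogonal (hr : 3 ≤ r) (a : Fin r → Fin r → K) (v w : Fin r → K) :
    ∃ n : Fin r → K, n ≠ 0 ∧ bf a v n = 0 ∧ bf a w n = 0 := by
  let f1 : (Fin r → K) →ₗ[K] K :=
    { toFun := bf a v
      map_add' := bf_add a v
      map_smul' := fun c y => bf_smul a c v y }
  let f2 : (Fin r → K) →ₗ[K] K :=
    { toFun := bf a w
      map_add' := bf_add a w
      map_smul' := fun c y => bf_smul a c w y }
  have h : LinearMap.ker (f1.prod f2) ≠ ⊥ := by
    apply LinearMap.ker_ne_bot_of_finrank_lt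
    rw [Module.finrank_prod, Module.finrank_self, Module.finrank_fin_fun]
    omega
  obtain ⟨n, hn, hn0⟩ := (Submodule.ne_bot_iff _).mp h
  rw [LinearMap.mem_ker] at hn
  exact ⟨n, hn0, congrArg Prod.fst hn, congrArg Prod.snd hn⟩

/-- Any two points of a quadric of positive dimension are joined by at most two rational curves
in it. -/
theorem fibre_link (hr : 3 ≤ r) (a : Fin r → Fin r → K) (v w : Fin r → K)
    (hv : qf a v = 0) (hw : qf a w = 0) :
    FL a v w ∨ ∃ n : Fin r → K, n ≠ 0 ∧ qf a n = 0 ∧ FL a v n ∧ FL a n w := by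
  by_cases hvw : bf a v w = 0
  · exact Or.inl (FL.line hv hw hvw)
  obtain ⟨n, hn0, h1, h2⟩ := exists_orthogonal hr a v w
  by_cases hn : qf a n = 0
  · exact Or.inr ⟨n, hn0, hn, FL.line hv hn h1, FL.line hn hw (by rw [bf_comm]; exact h2)⟩
  left
  refine ⟨((1 - X) ^ 2 * C (qf a n) : K[X]) • (fun i => C (v i)) +
    (- (X * (1 - X) * C (bf a v w)) : K[X]) • (fun i => C (n i)) +
    (- (X ^ 2 * C (bf a v w)) : K[X]) • (fun i => C (w i)), ?_, ⟨qf a n, hn, ?_⟩,
    ⟨- bf a v w, neg_ne_zero.mpr hvw, ?_⟩⟩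
  · rw [qf_three', qf_C, qf_C, qf_C, bf_C, bf_C, bf_C, hv, hw, h1, bf_comm a n w, h2]
    simp only [map_zero]
    ring
  · funext i
    simp
  · funext i
    simp

/-- homogenisation of a polynomial -/
noncomputable def hom {R : Type*} [CommRing R] [Algebra K R] (D : ℕ) (p : K[X]) (U V : R) : R :=
  ∑ k ∈ Finset.range (D + 1), algebraMap K R (p.coeff k) * U ^ k * V ^ (D - k)

theorem hom_eq {F : Type*} [Field F] [Algebra K F] (D : ℕ) (p : K[X]) (hp : p.natDegree ≤ D)
    (U V : F) (hV : V ≠ 0) : hom D p U V = V ^ D * aeval (U / V) p := by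
  unfold hom
  rw [aeval_eq_sum_range' (Nat.lt_succ_of_le hp), Finset.mul_sum]
  refine Finset.sum_congr rfl fun k hk => ?_
  rw [Finset.mem_range] at hk
  rw [Algebra.smul_def, div_pow]
  have h : V ^ D = V ^ (D - k) * V ^ k := by rw [← pow_add]; congr 1; omega
  rw [h]
  field_simp

theorem map_hom {R R' : Type*} [CommRing R] [CommRing R'] [Algebra K R] [Algebra K R']
    (φ : R →ₐ[K] R') (D : ℕ) (p : K[X]) (U V : R) :
    φ (hom D p U V) = hom D p (φ U) (φ V) := by
  unfold hom
  simp only [map_sum, map_mul, map_pow, AlgHom.commutes]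

/-- Dividing by the greatest common divisor. -/
theorem exists_primitive (Y : Fin r → K[X]) (hY : Y ≠ 0) :
    ∃ (d : K[X]) (Z : Fin r → K[X]), d ≠ 0 ∧ Y = d • Z ∧
      ∀ a : K, (fun i => (Z i).eval a) ≠ 0 := by
  obtain ⟨d, hd⟩ := (IsPrincipalIdealRing.principal (Ideal.span (Set.range Y))).principal
  have h1 : ∀ i, ∃ z, Y i = d * z := by
    intro i
    have : Y i ∈ Ideal.span (Set.range Y) := Ideal.subset_span ⟨i, rfl⟩
    rw [hd] at this
    obtain ⟨z, hz⟩ := Ideal.mem_span_singleton.mp this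
    exact ⟨z, hz⟩
  choose Z hZ using h1
  have hd0 : d ≠ 0 := by
    rintro rfl
    apply hY
    funext i
    rw [hZ i, zero_mul]
    rfl
  have h2 : d ∈ Ideal.span (Set.range Y) := by
    rw [hd]
    exact Ideal.mem_span_singleton_self d
  obtain ⟨u, hu⟩ := (Ideal.mem_span_range_iff_exists_fun).mp h2
  have h3 : ∑ i, u i * Z i = 1 := by
    apply mul_left_cancel₀ hd0
    rw [mul_one, Finset.mul_sum]
    conv_rhs => rw [← hu]
    refine Finset.sum_congr rfl fun i _ => ?_
    rw [hZ i]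
    ring
  refine ⟨d, Z, hd0, ?_, ?_⟩
  · funext i
    rw [hZ i]
    rfl
  · intro a h
    have h4 := congrArg (eval a) h3
    rw [eval_finsetSum, eval_one] at h4
    have h5 : ∀ i, (Z i).eval a = 0 := fun i => congrFun h i
    simp [h5] at h4

end

end Pool.Agent.H19.QBR
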