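import Pool.Agent.H19.QBR.Link

/-!
# The rational curve in the base
-/

set_option autoImplicit false

open Polynomial

namespace Pool.Agent.H19.QBR

section

variable {K : Type*} [NontriviallyNormedField K] [IsUltrametricDist K] [CompleteSpace K]

/-- A quadratic form over `K[T]` in at least three variables has a zero after a substitution
`T = U / V` with the values `s0` at `0` and `t0` at `1`. -/
theorem exists_curve (hK : Base K) {r : ℕ} (hr : 3 ≤ r) (a : Fin r → Fin r → K[X]) (s0 t0 : K) :
    ∃ (U V : K[X]) (Y : Fin r → K[X]), V.eval 0 ≠ 0 ∧ U.eval 0 = s0 * V.eval 0 ∧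
      V.eval 1 ≠ 0 ∧ U.eval 1 = t0 * V.eval 1 ∧ Y ≠ 0 ∧
      qf (fun i j => aeval (algebraMap K[X] (RatFunc K) U / algebraMap K[X] (RatFunc K) V)
        (a i j)) (fun i => algebraMap K[X] (RatFunc K) (Y i)) = 0 := by
  obtain ⟨t, ht, hsub⟩ := exists_isotropic_sub hK
  set D : ℕ := ∑ i, ∑ j, (a i j).natDegree with hD
  have haD : ∀ i j, (a i j).natDegree ≤ D := by
    intro i j
    refine le_trans ?_ (Finset.single_le_sum (f := fun i => ∑ j, (a i j).natDegree)
      (fun _ _ => Nat.zero_le _) (Finset.mem_univ i))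
    exact Finset.single_le_sum (f := fun j => (a i j).natDegree)
      (fun _ _ => Nat.zero_le _) (Finset.mem_univ j)
  obtain ⟨M, j0, hj0, y, hy, hq⟩ := hsub r hr
    (fun i j => hom D (a i j) (C s0 + X * C t0 : K[X]) (1 + X))
  set N : ℕ := 2 ^ j0 with hN
  have hN0 : N ≠ 0 := by positivity
  obtain ⟨τ, hτ⟩ : ∃ τ : K, τ = t ^ M := ⟨_, rfl⟩
  have hτ0 : τ ≠ 0 := by rw [hτ]; exact pow_ne_zero M ht
  have hsubeq : sub t M j0 = C τ * X ^ N := by rw [hτ]; rfl
  set V : K[X] := (1 - X) ^ N + C τ * X ^ N with hV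
  set U : K[X] := C s0 * (1 - X) ^ N + C t0 * (C τ * X ^ N) with hU
  have hV0 : V.eval 0 = 1 := by simp [hV, hN0]
  have hU0 : U.eval 0 = s0 := by simp [hU, hN0]
  have hV1 : V.eval 1 = τ := by simp [hV, hN0]
  have hU1 : U.eval 1 = t0 * τ := by simp [hU, hN0]
  let ι : K[X] →ₐ[K] RatFunc K := IsScalarTower.toAlgHom K K[X] (RatFunc K)
  have hι : ∀ p, algebraMap K[X] (RatFunc K) p = ι p := fun p => rfl
  have hιinj : Function.Injective ι := IsFractionRing.injective K[X] (RatFunc K)
  have hVne : V ≠ 0 := by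
    intro h
    rw [h, eval_zero] at hV0
    exact zero_ne_one hV0
  have hιV : ι V ≠ 0 := fun h => hVne (hιinj (by rw [h, map_zero]))
  have h1X : (1 - X : K[X]) ≠ 0 := by
    intro h
    have := congrArg (eval 0) h
    simp at this
  have hι1 : ι (1 - X) ≠ 0 := fun h => h1X (hιinj (by rw [h, map_zero]))
  set w : RatFunc K := ι X / ι (1 - X) with hw
  have hwX : w * ι (1 - X) = ι X := by rw [hw]; field_simp
  -- the solution
  set D' : ℕ := ∑ i, (y i).natDegree with hD'
  have hyD : ∀ i, (y i).natDegree ≤ D' := fun i =>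
    Finset.single_le_sum (f := fun i => (y i).natDegree) (fun _ _ => Nat.zero_le _)
      (Finset.mem_univ i)
  have hYι : ∀ i, ι (hom D' (y i) X (1 - X)) = ι (1 - X) ^ D' * aeval w (y i) := by
    intro i
    rw [map_hom, hom_eq D' (y i) (hyD i) _ _ hι1]
  refine ⟨U, V, fun i => hom D' (y i) X (1 - X), by rw [hV0]; exact one_ne_zero,
    by rw [hU0, hV0, mul_one], by rw [hV1]; exact hτ0, by rw [hU1, hV1], ?_, ?_⟩
  · intro h
    apply hy
    funext i
    by_contra hne
    have h1 : hom D' (y i) X (1 - X) = (0 : K[X]) := congrFun h i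
    have h2 := hYι i
    rw [h1, map_zero] at h2
    have h3 : aeval w (y i) = 0 := by
      rcases mul_eq_zero.mp h2.symm with h3 | h3
      · exact absurd h3 (pow_ne_zero D' hι1)
      · exact h3
    have h4 : ι (hom (y i).natDegree (y i) X (1 - X)) = 0 := by
      rw [map_hom, hom_eq _ _ le_rfl _ _ hι1, ← hw, h3, mul_zero]
    have h5 : hom (y i).natDegree (y i) X (1 - X) = (0 : K[X]) :=
      hιinj (by rw [h4, map_zero])
    have h6 := congrArg (eval 1) h5
    have h7 : eval 1 (hom (y i).natDegree (y i) X (1 - X) : K[X]) =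
        (y i).coeff (y i).natDegree := by
      unfold hom
      rw [eval_finsetSum, Finset.sum_eq_single (y i).natDegree]
      · simp
      · intro k hk hk2
        rw [Finset.mem_range] at hk
        have : (y i).natDegree - k ≠ 0 := by omega
        simp [this]
      · intro h
        exact absurd (Finset.mem_range.mpr (Nat.lt_succ_self _)) h
    rw [h7, eval_zero] at h6
    exact hne (leadingCoeff_eq_zero.mp h6)
  · -- the equation
    have hζ : aeval w (sub t M j0) = ι (C τ * X ^ N) / ι (1 - X) ^ N := by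
      rw [hsubeq, map_mul, map_pow, aeval_X, aeval_C, hw, div_pow, map_mul ι, map_pow ι X N]
      have : algebraMap K (RatFunc K) τ = ι (C τ) := by
        rw [← AlgHom.commutes ι]
        rfl
      rw [this]
      ring
    set ζ : RatFunc K := aeval w (sub t M j0) with hζdef
    have hCs : ∀ c : K, ι (C c) = algebraMap K (RatFunc K) c := by
      intro c
      rw [← AlgHom.commutes ι]
      rfl
    have e1 : 1 + ζ = ι V / ι (1 - X) ^ N := by
      rw [hζ, hV, map_add, map_pow ι (1 - X) N]
      field_simp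
    have e2 : algebraMap K (RatFunc K) s0 + ζ * algebraMap K (RatFunc K) t0 =
        ι U / ι (1 - X) ^ N := by
      rw [hζ, hU, map_add, map_mul ι (C s0), map_mul ι (C t0), map_pow ι (1 - X) N, hCs, hCs]
      field_simp
    have h1ζ : 1 + ζ ≠ 0 := by
      rw [e1]
      exact div_ne_zero hιV (pow_ne_zero N hι1)
    have e3 : (algebraMap K (RatFunc K) s0 + ζ * algebraMap K (RatFunc K) t0) / (1 + ζ) =
        ι U / ι V := by
      rw [e1, e2]
      field_simp
    have e4 : ∀ i j, aeval w ((hom D (a i j) (C s0 + X * C t0 : K[X]) (1 + X)).comp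
        (sub t M j0)) = (1 + ζ) ^ D * aeval (ι U / ι V) (a i j) := by
      intro i j
      rw [aeval_comp, ← hζdef, map_hom, map_add, map_add, map_mul, aeval_C, aeval_C, aeval_X,
        map_one, hom_eq D _ (haD i j) _ _ h1ζ, e3]
    have e5 := congrArg (aeval w : K[X] →ₐ[K] RatFunc K) hq
    rw [map_zero] at e5
    have e6 := map_qf (aeval w : K[X] →ₐ[K] RatFunc K).toRingHom
      (fun i j => (hom D (a i j) (C s0 + X * C t0 : K[X]) (1 + X)).comp (sub t M j0)) y
    have e7 : qf (fun i j => (1 + ζ) ^ D * aeval (ι U / ι V) (a i j))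
        (fun i => aeval w (y i)) = 0 := by
      rw [← e5]
      refine Eq.trans ?_ e6.symm
      congr 1
      funext i j
      exact (e4 i j).symm
    have e8 : qf (fun i j => aeval (ι U / ι V) (a i j)) (fun i => aeval w (y i)) = 0 := by
      have : qf (fun i j => (1 + ζ) ^ D * aeval (ι U / ι V) (a i j))
          (fun i => aeval w (y i)) =
          (1 + ζ) ^ D * qf (fun i j => aeval (ι U / ι V) (a i j)) (fun i => aeval w (y i)) := by
        unfold qf
        rw [Finset.mul_sum]
        refine Finset.sum_congr rfl fun i _ => ?_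
        rw [Finset.mul_sum]
        refine Finset.sum_congr rfl fun j _ => ?_
        ring
      rw [this] at e7
      rcases mul_eq_zero.mp e7 with h | h
      · exact absurd h (pow_ne_zero D h1ζ)
      · exact h
    have e9 : (fun i => algebraMap K[X] (RatFunc K) (hom D' (y i) X (1 - X))) =
        (ι (1 - X) ^ D') • (fun i => aeval w (y i)) := by
      funext i
      rw [hι, hYι i]
      rfl
    rw [e9, qf_smul]
    have e10 : qf (fun i j => aeval (algebraMap K[X] (RatFunc K) U /
      algebraMap K[X] (RatFunc K) V) (a i j)) (fun i => aeval w (y i)) = 0 := e8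
    rw [e10, mul_zero]

end

end Pool.Agent.H19.QBR
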