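import Pool.Agent.H19.QBR.Val

/-!
# Square conditions after the substitution `z = t^M s^(2^j)`
-/

set_option autoImplicit false

open Polynomial

namespace Pool.Agent.H19.QBR

/-- For all but finitely many `M` and for all large `j`. -/
def Ev (P : ℕ → ℕ → Prop) : Prop :=
  ∃ E : Finset ℕ, ∀ M ∉ E, ∃ j0 : ℕ, ∀ j ≥ j0, P M j

theorem Ev.and {P Q : ℕ → ℕ → Prop} (hP : Ev P) (hQ : Ev Q) : Ev (fun M j => P M j ∧ Q M j) := by
  classical
  obtain ⟨E, hE⟩ := hP
  obtain ⟨E', hE'⟩ := hQ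
  refine ⟨E ∪ E', fun M hM => ?_⟩
  rw [Finset.mem_union, not_or] at hM
  obtain ⟨j1, h1⟩ := hE M hM.1
  obtain ⟨j2, h2⟩ := hE' M hM.2
  exact ⟨max j1 j2, fun j hj => ⟨h1 j (le_trans (le_max_left _ _) hj),
    h2 j (le_trans (le_max_right _ _) hj)⟩⟩

theorem Ev.mono {P Q : ℕ → ℕ → Prop} (hP : Ev P) (h : ∀ M j, 1 ≤ j → P M j → Q M j) : Ev Q := by
  obtain ⟨E, hE⟩ := hP
  refine ⟨E, fun M hM => ?_⟩
  obtain ⟨j1, h1⟩ := hE M hM
  exact ⟨max j1 1, fun j hj => h M j (le_trans (le_max_right _ _) hj)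
    (h1 j (le_trans (le_max_left _ _) hj))⟩

theorem Ev.of_forall {P : ℕ → ℕ → Prop} (h : ∀ M j, P M j) : Ev P :=
  ⟨∅, fun M _ => ⟨0, fun j _ => h M j⟩⟩

/-- the substitution -/
noncomputable def sub {K : Type*} [Field K] (t : K) (M j : ℕ) : K[X] := C (t ^ M) * X ^ 2 ^ j

theorem sub_natDegree {K : Type*} [Field K] {t : K} (ht : t ≠ 0) (M j : ℕ) :
    (sub t M j).natDegree = 2 ^ j := by
  unfold sub
  exact natDegree_C_mul_X_pow _ _ (pow_ne_zero M ht)

theorem coeff_zero_comp_sub {K : Type*} [Field K] (t : K) (M j : ℕ) (p : K[X]) :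
    (p.comp (sub t M j)).coeff 0 = p.coeff 0 := by
  rw [coeff_zero_eq_eval_zero, eval_comp, coeff_zero_eq_eval_zero]
  congr 1
  unfold sub
  simp

theorem comp_sub_ne_zero {K : Type*} [Field K] (t : K) (M j : ℕ) (p : K[X])
    (hp : p.coeff 0 ≠ 0) : p.comp (sub t M j) ≠ 0 := by
  intro h
  apply hp
  rw [← coeff_zero_comp_sub t M j p, h, coeff_zero]

/-- `- γ / β` is a square modulo `α`. -/
def SqM {K : Type*} [Field K] (α β γ : K[X]) : Prop := ∃ ρ : K[X], α ∣ β * ρ ^ 2 + γ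

theorem SqM.mul {K : Type*} [Field K] {a b β γ : K[X]} (ha : SqM a β γ) (hb : SqM b β γ)
    (hab : IsCoprime a b) : SqM (a * b) β γ := by
  obtain ⟨r1, h1⟩ := ha
  obtain ⟨r2, h2⟩ := hb
  obtain ⟨u, v, huv⟩ := id hab
  refine ⟨u * a * r2 + v * b * r1, hab.mul_dvd ?_ ?_⟩
  · obtain ⟨q, hq⟩ := h1
    refine ⟨q + β * (u * (r2 - r1)) * (u * a * r2 + v * b * r1 + r1), ?_⟩
    have e : u * a * r2 + v * b * r1 - r1 = a * (u * (r2 - r1)) := by
      linear_combination r1 * huv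
    linear_combination hq + β * (u * a * r2 + v * b * r1 + r1) * e
  · obtain ⟨q, hq⟩ := h2
    refine ⟨q + β * (v * (r1 - r2)) * (u * a * r2 + v * b * r1 + r2), ?_⟩
    have e : u * a * r2 + v * b * r1 - r2 = b * (v * (r1 - r2)) := by
      linear_combination r2 * huv
    linear_combination hq + β * (u * a * r2 + v * b * r1 + r2) * e

section

variable {K : Type*} [NontriviallyNormedField K] [IsUltrametricDist K] [CompleteSpace K]

/-- The square condition for an irreducible polynomial. -/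
theorem sqM_irreducible (hK : Base K) (t : K) (h0 : t ≠ 0) (h1 : ‖t‖ < 1)
    (ht : ∀ x : K, x ≠ 0 → ∃ n : ℤ, ‖x‖ = ‖t‖ ^ n) (b β γ : K[X]) (hb : Irreducible b)
    (hb0 : b.coeff 0 ≠ 0) (hβ : ¬ b ∣ β) (hγ : ¬ b ∣ γ) :
    Ev (fun M j => SqM (b.comp (sub t M j)) (β.comp (sub t M j)) (γ.comp (sub t M j))) := by
  have : Fact (Irreducible b) := ⟨hb⟩
  have : FiniteDimensional K (AdjoinRoot b) := (AdjoinRoot.powerBasis hb.ne_zero).finite
  set θ : AdjoinRoot b := AdjoinRoot.root b with hθ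
  have hθ0 : θ ≠ 0 := by
    intro h
    have h2 : aeval θ b = 0 := by rw [hθ, AdjoinRoot.aeval_eq, AdjoinRoot.mk_self]
    rw [h, ← coeff_zero_eq_aeval_zero', map_eq_zero] at h2
    exact hb0 h2
  obtain ⟨E, hE⟩ := exists_sq_mod_ext hK t h0 h1 ht (AdjoinRoot b) θ hθ0
  refine ⟨E, fun M hM => ?_⟩
  obtain ⟨j0, hj0⟩ := hE M hM
  refine ⟨j0, fun j hj => ?_⟩
  have hβ0 : AdjoinRoot.mk b β ≠ 0 := by rwa [Ne, AdjoinRoot.mk_eq_zero]
  have hγ0 : AdjoinRoot.mk b γ ≠ 0 := by rwa [Ne, AdjoinRoot.mk_eq_zero]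
  obtain ⟨R, hR⟩ := hj0 j hj (- AdjoinRoot.mk b γ / AdjoinRoot.mk b β)
    (div_ne_zero (neg_ne_zero.mpr hγ0) hβ0)
  obtain ⟨H, hH⟩ := hR
  have htL : algebraMap K (AdjoinRoot b) t ≠ 0 := by rwa [Ne, map_eq_zero]
  have hsurj : Function.Surjective (mapRingHom (AdjoinRoot.mk b)) :=
    map_surjective _ AdjoinRoot.mk_surjective
  obtain ⟨R', hR'⟩ := hsurj R
  obtain ⟨H', hH'⟩ := hsurj
    (C (AdjoinRoot.mk b β) * C ((algebraMap K (AdjoinRoot b) t ^ M)⁻¹) * H)
  obtain ⟨τ, hτ⟩ : ∃ τ : K, τ = t ^ M := ⟨_, rfl⟩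
  have hsub : sub t M j = C τ * X ^ 2 ^ j := by rw [hτ]; rfl
  have hmapt : AdjoinRoot.mk b (C τ) = algebraMap K (AdjoinRoot b) t ^ M := by
    rw [AdjoinRoot.mk_C, hτ, map_pow]
    rfl
  set G : K[X][X] := C β * R' ^ 2 + C γ - (C (C τ) * X ^ 2 ^ j - C X) * H' with hG
  have hmapG : mapRingHom (AdjoinRoot.mk b) G = 0 := by
    rw [hG, map_sub, map_add, map_mul, map_mul, map_pow, map_sub, map_mul, map_pow, hR', hH']
    simp only [coe_mapRingHom, map_C, map_X, AdjoinRoot.mk_X]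
    rw [hmapt, ← hθ]
    have e1 : (C (algebraMap K (AdjoinRoot b) t ^ M) * X ^ 2 ^ j - C θ : (AdjoinRoot b)[X]) =
        C (algebraMap K (AdjoinRoot b) t ^ M) *
          (X ^ 2 ^ j - C (θ / algebraMap K (AdjoinRoot b) t ^ M)) := by
      rw [mul_sub, ← C_mul, mul_div_cancel₀ _ (pow_ne_zero M htL)]
    have e2 : (C (algebraMap K (AdjoinRoot b) t ^ M) *
        C ((algebraMap K (AdjoinRoot b) t ^ M)⁻¹) : (AdjoinRoot b)[X]) = 1 := by
      rw [← C_mul, mul_inv_cancel₀ (pow_ne_zero M htL), C_1]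
    have e3 : (C (AdjoinRoot.mk b β) * C (- AdjoinRoot.mk b γ / AdjoinRoot.mk b β) :
        (AdjoinRoot b)[X]) = - C (AdjoinRoot.mk b γ) := by
      rw [← C_mul, mul_div_cancel₀ _ hβ0, C_neg]
    rw [e1]
    linear_combination C (AdjoinRoot.mk b β) * hH + e3 - C (AdjoinRoot.mk b β) * H *
      (X ^ 2 ^ j - C (θ / algebraMap K (AdjoinRoot b) t ^ M)) * e2
  have hdvd : C b ∣ G := by
    rw [C_dvd_iff_dvd_coeff]
    intro n
    rw [← AdjoinRoot.mk_eq_zero]
    have := congrArg (fun p => coeff p n) hmapG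
    simpa using this
  have h5 := map_dvd (eval₂RingHom (compRingHom (sub t M j)) (X : K[X])) hdvd
  refine ⟨eval₂RingHom (compRingHom (sub t M j)) (X : K[X]) R', ?_⟩
  have e4 : eval₂RingHom (compRingHom (sub t M j)) (X : K[X]) (C b) = b.comp (sub t M j) := by
    simp
  have e5 : eval₂RingHom (compRingHom (sub t M j)) (X : K[X]) G =
      β.comp (sub t M j) * (eval₂RingHom (compRingHom (sub t M j)) (X : K[X]) R') ^ 2 +
        γ.comp (sub t M j) := by
    rw [hG, map_sub, map_add, map_mul, map_mul, map_pow, map_sub, map_mul, map_pow]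
    simp only [coe_eval₂RingHom, eval₂_C, eval₂_X, coe_compRingHom_apply, C_comp, X_comp]
    rw [hsub]
    ring
  rw [e4, e5] at h5
  exact h5

/-- The square condition for a squarefree polynomial. -/
theorem sqM_squarefree (hK : Base K) (t : K) (h0 : t ≠ 0) (h1 : ‖t‖ < 1)
    (ht : ∀ x : K, x ≠ 0 → ∃ n : ℤ, ‖x‖ = ‖t‖ ^ n) (β γ : K[X]) (a : K[X]) :
    Squarefree a → a.coeff 0 ≠ 0 → IsCoprime a β → IsCoprime a γ →
    Ev (fun M j => SqM (a.comp (sub t M j)) (β.comp (sub t M j)) (γ.comp (sub t M j))) := by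
  induction a using UniqueFactorizationMonoid.induction_on_coprime with
  | h0 => intro _ h; simp at h
  | h1 hx =>
    intro _ _ _ _
    refine Ev.of_forall fun M j => ⟨0, ?_⟩
    apply IsUnit.dvd
    exact hx.map (compRingHom (sub t M j))
  | hpr i hp =>
    rename_i p
    intro hsf hc hβ hγ
    rcases Nat.lt_or_ge i 2 with hi | hi
    · interval_cases i
      · refine Ev.of_forall fun M j => ⟨0, ?_⟩
        simp
      · rw [pow_one] at hc hβ hγ ⊢
        have hirr := hp.irreducible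
        refine sqM_irreducible hK t h0 h1 ht p β γ hirr hc ?_ ?_
        · intro h
          exact hp.not_isUnit (hβ.isUnit_of_dvd' dvd_rfl h)
        · intro h
          exact hp.not_isUnit (hγ.isUnit_of_dvd' dvd_rfl h)
    · exfalso
      have : p * p ∣ p ^ i := by
        rw [← sq]; exact pow_dvd_pow p hi
      exact hp.not_isUnit (hsf p this)
  | hcp hxy hx hy =>
    rename_i x y
    intro hsf hc hβ hγ
    have hcop : IsCoprime x y := hxy.isCoprime
    have hcx : x.coeff 0 ≠ 0 := by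
      intro h; apply hc; rw [mul_coeff_zero, h, zero_mul]
    have hcy : y.coeff 0 ≠ 0 := by
      intro h; apply hc; rw [mul_coeff_zero, h, mul_zero]
    have h1 := hx (hsf.of_mul_left) hcx (hβ.of_mul_left_left) (hγ.of_mul_left_left)
    have h2 := hy (hsf.of_mul_right) hcy (hβ.of_mul_left_right) (hγ.of_mul_left_right)
    refine (h1.and h2).mono fun M j _ h => ?_
    rw [mul_comp]
    exact h.1.mul h.2 (hcop.map (compRingHom (sub t M j)))

end

end Pool.Agent.H19.QBR
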