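import Mathlib

/-!
# Square roots in finite extensions of a complete field with algebraically closed residue field
-/

set_option autoImplicit false

open Polynomial

namespace Pool.Agent.H19.QBR

theorem usub {L : Type*} [SeminormedAddCommGroup L] [IsUltrametricDist L] (x y : L) :
    ‖x - y‖ ≤ max ‖x‖ ‖y‖ := by
  rw [sub_eq_add_neg, ← norm_neg y]
  exact IsUltrametricDist.norm_add_le_max _ _

theorem unorm_eq {L : Type*} [SeminormedAddCommGroup L] [IsUltrametricDist L] (x y : L)
    (h : ‖x - y‖ < ‖x‖) : ‖y‖ = ‖x‖ := by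
  have h1 : y = x + (y - x) := by abel
  have h2 : ‖y - x‖ < ‖x‖ := by rwa [norm_sub_rev]
  have h3 : ‖x + (y - x)‖ = max ‖x‖ ‖y - x‖ :=
    IsUltrametricDist.norm_add_eq_max_of_norm_ne_norm h2.ne'
  rw [← h1, max_eq_left h2.le] at h3
  exact h3

/-- In a complete ultrametric field in which `2` is a unit of the ring of integers, `1 + y` is a
square for `‖y‖ < 1`. -/
theorem exists_sqrt_one_add {L : Type*} [NormedField L] [IsUltrametricDist L] [CompleteSpace L]
    (h2 : ‖(2 : L)‖ = 1) (y : L) (hy : ‖y‖ < 1) : ∃ z : L, (1 + z) ^ 2 = 1 + y := by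
  have h20 : (2 : L) ≠ 0 := by
    intro h
    rw [h, norm_zero] at h2
    exact zero_ne_one h2
  let S : Set L := Metric.closedBall 0 ‖y‖
  have hmaps : ∀ z ∈ S, (y - z ^ 2) / 2 ∈ S := by
    intro z hz
    rw [mem_closedBall_zero_iff] at hz ⊢
    rw [norm_div, h2, div_one]
    refine (usub _ _).trans (max_le le_rfl ?_)
    rw [norm_pow, sq]
    calc ‖z‖ * ‖z‖ ≤ ‖y‖ * ‖y‖ := mul_le_mul hz hz (norm_nonneg _) (norm_nonneg _)
      _ ≤ 1 * ‖y‖ := mul_le_mul_of_nonneg_right hy.le (norm_nonneg _)
      _ = ‖y‖ := one_mul _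
  let f : S → S := fun z => ⟨(y - (z : L) ^ 2) / 2, hmaps z z.2⟩
  have hcontr : ContractingWith ⟨‖y‖, norm_nonneg y⟩ f := by
    constructor
    · exact hy
    · apply LipschitzWith.of_dist_le_mul
      intro a b
      rw [Subtype.dist_eq, Subtype.dist_eq, dist_eq_norm, dist_eq_norm]
      have he : (y - (a : L) ^ 2) / 2 - (y - (b : L) ^ 2) / 2 =
          (((b : L) + a) * (b - a)) / 2 := by ring
      show ‖(y - (a : L) ^ 2) / 2 - (y - (b : L) ^ 2) / 2‖ ≤ ‖y‖ * ‖(a : L) - b‖
      rw [he, norm_div, h2, div_one, norm_mul, norm_sub_rev (b : L) a]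
      apply mul_le_mul_of_nonneg_right _ (norm_nonneg _)
      have ha : ‖(a : L)‖ ≤ ‖y‖ := mem_closedBall_zero_iff.mp a.2
      have hb : ‖(b : L)‖ ≤ ‖y‖ := mem_closedBall_zero_iff.mp b.2
      exact (IsUltrametricDist.norm_add_le_max _ _).trans (max_le hb ha)
  have hcomp : CompleteSpace S := by
    have : IsClosed S := Metric.isClosed_closedBall
    exact this.completeSpace_coe
  have hne : Nonempty S := ⟨⟨0, by simp [S]⟩⟩
  let z := hcontr.fixedPoint f
  have hz : f z = z := hcontr.fixedPoint_isFixedPt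
  have hz' : (y - (z : L) ^ 2) / 2 = (z : L) := congrArg Subtype.val hz
  refine ⟨z, ?_⟩
  have : y - (z : L) ^ 2 = 2 * z := by
    rw [div_eq_iff h20] at hz'
    rw [hz']; ring
  linear_combination -this

/-- The hypotheses on the base field: complete discretely valued, the residue field is
algebraically closed of characteristic different from two. -/
structure Base (K : Type*) [NontriviallyNormedField K] : Prop where
  /-- a uniformiser -/
  disc : ∃ ϖ : K, ϖ ≠ 0 ∧ ‖ϖ‖ < 1 ∧ ∀ x : K, x ≠ 0 → ∃ n : ℤ, ‖x‖ = ‖ϖ‖ ^ n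
  /-- the residue field is algebraically closed -/
  res : ∀ P : K[X], P.Monic → 0 < P.natDegree → (∀ i, ‖P.coeff i‖ ≤ 1) →
    ∃ c : K, ‖c‖ ≤ 1 ∧ ‖P.eval c‖ < 1
  /-- its characteristic is not two -/
  two : ‖(2 : K)‖ = 1

section

variable {K : Type*} [NontriviallyNormedField K] [IsUltrametricDist K] [CompleteSpace K]
variable {L : Type*} [Field L] [Algebra K L] [FiniteDimensional K L]

theorem spectralNorm_mul' (x y : L) :
    spectralNorm K L (x * y) = spectralNorm K L x * spectralNorm K L y :=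
  spectralAlgNorm_mul x y

/-- A unit of `L` is near a constant. -/
theorem exists_near (hK : Base K) (x : L) (hx : spectralNorm K L x = 1) :
    ∃ c : K, ‖c‖ ≤ 1 ∧ spectralNorm K L (x - algebraMap K L c) < 1 := by
  have hint : IsIntegral K x := Algebra.IsIntegral.isIntegral x
  have hmon := minpoly.monic hint
  have hcoef : ∀ i, ‖(minpoly K x).coeff i‖ ≤ 1 := by
    have : spectralValue (minpoly K x) ≤ 1 := le_of_eq hx
    exact (spectralValue_le_one_iff hmon).mp this
  obtain ⟨c, hc1, hc2⟩ := hK.res (minpoly K x) hmon (minpoly.natDegree_pos hint) hcoef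
  refine ⟨c, hc1, ?_⟩
  rw [spectralNorm.spectralNorm_eq_norm_coeff_zero_rpow]
  have hmp : minpoly K (x - algebraMap K L c) = (minpoly K x).comp (X + C c) := by
    exact minpoly.sub_algebraMap x c
  have hpos : 0 < (minpoly K (x - algebraMap K L c)).natDegree :=
    minpoly.natDegree_pos (Algebra.IsIntegral.isIntegral _)
  apply Real.rpow_lt_one (norm_nonneg _)
  · rw [hmp, coeff_zero_eq_eval_zero, eval_comp]
    simpa using hc2
  · positivity

/-- Every unit of `L` is a square. -/
theorem unit_isSquare (hK : Base K) (x : L) (hx : spectralNorm K L x = 1) :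
    ∃ y : L, x = y ^ 2 := by
  letI : NormedField L := spectralNorm.normedField K L
  letI : NormedAlgebra K L := spectralNorm.normedAlgebra K L
  have hnorm : ∀ z : L, ‖z‖ = spectralNorm K L z := fun z => rfl
  haveI : CompleteSpace L := spectralNorm.completeSpace K L
  haveI : IsUltrametricDist L := by
    apply IsUltrametricDist.isUltrametricDist_of_isNonarchimedean_norm
    exact isNonarchimedean_spectralNorm
  have hmapn : ∀ c : K, ‖algebraMap K L c‖ = ‖c‖ := fun c => spectralNorm_extends c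
  have h2L : ‖(2 : L)‖ = 1 := by
    have := hmapn 2
    rw [map_ofNat] at this
    rw [this]; exact hK.two
  obtain ⟨c, hc1, hc2⟩ := exists_near hK x hx
  rw [← hnorm] at hc2 hx
  have hcn : ‖c‖ = 1 := by
    have h4 := unorm_eq x (algebraMap K L c) (by rw [hx]; exact hc2)
    rw [hmapn, hx] at h4
    exact h4
  -- a square root of the constant
  obtain ⟨d, hd1, hd2⟩ := hK.res (X ^ 2 - C c) (monic_X_pow_sub_C c two_ne_zero)
    (by rw [natDegree_X_pow_sub_C]; norm_num) (by
      intro i
      rw [coeff_sub, coeff_X_pow, coeff_C]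
      refine (usub _ _).trans (max_le ?_ ?_)
      · split_ifs <;> simp
      · split_ifs
        · exact hcn.le
        · simp)
  simp only [eval_sub, eval_pow, eval_X, eval_C] at hd2
  have hdn : ‖(d : K) ^ 2‖ = 1 := by
    have h4 := unorm_eq c (d ^ 2) (by rw [hcn, norm_sub_rev]; exact hd2)
    rw [hcn] at h4
    exact h4
  have hd0 : algebraMap K L d ≠ 0 := by
    intro h
    rw [map_eq_zero] at h
    rw [h] at hdn
    simp at hdn
  set D : L := algebraMap K L d with hD
  have hDn : ‖D ^ 2‖ = 1 := by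
    rw [hD, ← map_pow, hmapn]; exact hdn
  have hsmall : ‖x / D ^ 2 - 1‖ < 1 := by
    have h5 : x / D ^ 2 - 1 = (x - D ^ 2) / D ^ 2 := by
      field_simp
    rw [h5, norm_div, hDn, div_one]
    have h6 : x - D ^ 2 = (x - algebraMap K L c) - (D ^ 2 - algebraMap K L c) := by ring
    rw [h6]
    refine lt_of_le_of_lt (usub _ _) (max_lt hc2 ?_)
    rw [hD, ← map_pow, ← map_sub, hmapn]
    exact hd2
  obtain ⟨z, hz⟩ := exists_sqrt_one_add h2L _ hsmall
  refine ⟨D * (1 + z), ?_⟩
  rw [mul_pow, hz]
  field_simp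
  ring

end

end Pool.Agent.H19.QBR
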