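import Pool.Agent.H19.QBR.Mob

/-!
# Lifting a rational curve of the base, and the hypotheses on the base field
-/

set_option autoImplicit false

open Polynomial

namespace Pool.Agent.H19.QBR

theorem aeval_mul_homog {k R σ : Type*} [CommRing k] [CommRing R] [Algebra k R] [Fintype σ]
    {p : MvPolynomial σ k} {n : ℕ} (hp : p.IsHomogeneous n) (v : R) (x : σ → R) :
    MvPolynomial.aeval (fun j => v * x j) p = v ^ n * MvPolynomial.aeval x p := by
  rw [MvPolynomial.aeval_eq_eval₂Hom, MvPolynomial.aeval_eq_eval₂Hom,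
    MvPolynomial.coe_eval₂Hom, MvPolynomial.coe_eval₂Hom, MvPolynomial.eval₂_eq',
    MvPolynomial.eval₂_eq', Finset.mul_sum]
  refine Finset.sum_congr rfl fun d hd => ?_
  have hdeg : d.degree = n := by
    by_contra h
    exact MvPolynomial.mem_support_iff.mp hd (hp.coeff_eq_zero h)
  have h1 : ∏ i, (v * x i) ^ d i = v ^ n * ∏ i, x i ^ d i := by
    simp only [mul_pow]
    rw [Finset.prod_mul_distrib, Finset.prod_pow_eq_pow_sum, ← hdeg, Finsupp.degree_eq_sum]
  rw [h1]
  ring

theorem eval_smul_homog {k σ : Type*} [CommRing k] [Fintype σ]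
    {p : MvPolynomial σ k} {n : ℕ} (hp : p.IsHomogeneous n) (v : k) (x : σ → k) :
    MvPolynomial.eval (v • x) p = v ^ n * MvPolynomial.eval x p := by
  exact aeval_mul_homog hp v x

section

variable {K : Type*} [NontriviallyNormedField K] [IsUltrametricDist K] [CompleteSpace K]

/-- Every rational curve in the base lifts, after a substitution fixing two given parameters. -/
theorem base_link (hK : Base K) {m r : ℕ} (hr : 3 ≤ r) {ι : Type*}
    (g : ι → MvPolynomial (Fin (m + 1)) K) (n : ι → ℕ) (hg : ∀ l, (g l).IsHomogeneous (n l))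
    (A : Fin r → Fin r → MvPolynomial (Fin (m + 1)) K) (d : ℕ)
    (hA : ∀ i j, (A i j).IsHomogeneous d) (c : Fin (m + 1) → K[X])
    (hc : ∀ l, MvPolynomial.aeval c (g l) = 0) (s0 t0 : K) :
    ∃ (c' : Fin (m + 1) → K[X]) (Z : Fin r → K[X]), (∀ l, MvPolynomial.aeval c' (g l) = 0) ∧
      qf (fun i j => MvPolynomial.aeval c' (A i j)) Z = 0 ∧
      (∃ α : K, α ≠ 0 ∧ (fun j => (c' j).eval 0) = α • (fun j => (c j).eval s0)) ∧
      (∃ β : K, β ≠ 0 ∧ (fun j => (c' j).eval 1) = β • (fun j => (c j).eval t0)) ∧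
      (fun i => (Z i).eval 0) ≠ 0 ∧ (fun i => (Z i).eval 1) ≠ 0 := by
  obtain ⟨U, V, Y, hV0, hU0, hV1, hU1, hY, hq⟩ :=
    exists_curve hK hr (fun i j => MvPolynomial.aeval c (A i j)) s0 t0
  set D : ℕ := ∑ j, (c j).natDegree with hD
  have hcD : ∀ j, (c j).natDegree ≤ D := fun j =>
    Finset.single_le_sum (f := fun j => (c j).natDegree) (fun _ _ => Nat.zero_le _)
      (Finset.mem_univ j)
  let ι' : K[X] →ₐ[K] RatFunc K := IsScalarTower.toAlgHom K K[X] (RatFunc K)
  have hι : ∀ p, algebraMap K[X] (RatFunc K) p = ι' p := fun p => rfl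
  have hιinj : Function.Injective ι' := IsFractionRing.injective K[X] (RatFunc K)
  have hVne : V ≠ 0 := by
    rintro rfl
    simp at hV0
  have hιV : ι' V ≠ 0 := fun h => hVne (hιinj (by rw [h, map_zero]))
  simp only [hι] at hq
  -- the curve
  have hc' : (fun j => ι' (hom D (c j) U V)) =
      fun j => ι' V ^ D * (aeval (ι' U / ι' V) (c j)) := by
    funext j
    rw [map_hom, hom_eq D _ (hcD j) _ _ hιV]
  have hmap : ∀ (k : ℕ) (p : MvPolynomial (Fin (m + 1)) K), p.IsHomogeneous k →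
      ι' (MvPolynomial.aeval (fun j => hom D (c j) U V) p) =
        (ι' V ^ D) ^ k * aeval (ι' U / ι' V) (MvPolynomial.aeval c p) := by
    intro k p hp
    rw [MvPolynomial.comp_aeval_apply, MvPolynomial.comp_aeval_apply, hc',
      aeval_mul_homog hp]
  obtain ⟨dd, Z, hd0, hYZ, hZ⟩ := exists_primitive Y hY
  refine ⟨fun j => hom D (c j) U V, Z, ?_, ?_, ⟨V.eval 0 ^ D, pow_ne_zero D hV0, ?_⟩,
    ⟨V.eval 1 ^ D, pow_ne_zero D hV1, ?_⟩, hZ 0, hZ 1⟩
  · intro l
    apply hιinj
    rw [hmap (n l) (g l) (hg l), hc l, map_zero, mul_zero, map_zero]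
  · apply hιinj
    rw [map_zero]
    have h1 := map_qf ι'.toRingHom
      (fun i j => MvPolynomial.aeval (fun j => hom D (c j) U V) (A i j)) Z
    have h2 : ι' (qf (fun i j => MvPolynomial.aeval (fun j => hom D (c j) U V) (A i j)) Z) =
        (ι' V ^ D) ^ d * qf (fun i j => aeval (ι' U / ι' V) (MvPolynomial.aeval c (A i j)))
          (fun i => ι' (Z i)) := by
      refine Eq.trans h1 ?_
      unfold qf
      rw [Finset.mul_sum]
      refine Finset.sum_congr rfl fun i _ => ?_
      rw [Finset.mul_sum]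
      refine Finset.sum_congr rfl fun j _ => ?_
      have h3 := hmap d (A i j) (hA i j)
      show ι' (MvPolynomial.aeval (fun j => hom D (c j) U V) (A i j)) * ι' (Z i) * ι' (Z j) = _
      rw [h3]
      ring
    rw [h2]
    have h4 : (fun i => ι' (Y i)) = ι' dd • (fun i => ι' (Z i)) := by
      funext i
      rw [hYZ]
      show ι' (dd * Z i) = ι' dd * ι' (Z i)
      rw [map_mul]
    rw [h4, qf_smul] at hq
    have h5 : ι' dd ^ 2 ≠ 0 := pow_ne_zero 2 fun h => hd0 (hιinj (by rw [h, map_zero]))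
    rcases mul_eq_zero.mp hq with h6 | h6
    · exact absurd h6 h5
    · rw [h6, mul_zero]
  · funext j
    have h := map_hom (aeval (0 : K) : K[X] →ₐ[K] K) D (c j) U V
    rw [hom_eq D _ (hcD j) _ _ (by rw [coe_aeval_eq_eval]; exact hV0)] at h
    simp only [coe_aeval_eq_eval] at h
    rw [hU0, mul_div_cancel_right₀ _ hV0] at h
    exact h
  · funext j
    have h := map_hom (aeval (1 : K) : K[X] →ₐ[K] K) D (c j) U V
    rw [hom_eq D _ (hcD j) _ _ (by rw [coe_aeval_eq_eval]; exact hV1)] at h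
    simp only [coe_aeval_eq_eval] at h
    rw [hU1, mul_div_cancel_right₀ _ hV1] at h
    exact h

end

section

open scoped NormedField Valued

variable {K : Type*} [NontriviallyNormedField K] [IsUltrametricDist K]

/-- The hypotheses in terms of the valuation ring. -/
theorem base_of_dvr [IsDiscreteValuationRing 𝒪[K]] [IsAlgClosed 𝓀[K]] (h2 : (2 : 𝓀[K]) ≠ 0) :
    Base K := by
  constructor
  · obtain ⟨ϖ, hϖ⟩ := IsDiscreteValuationRing.exists_irreducible 𝒪[K]
    have h1 : ‖(ϖ : K)‖ < 1 := Valued.integer.norm_irreducible_lt_one hϖ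
    have h0 : (0 : ℝ) < ‖(ϖ : K)‖ := Valued.integer.norm_irreducible_pos hϖ
    refine ⟨ϖ, norm_pos_iff.mp h0, h1, ?_⟩
    have key : ∀ x : K, x ≠ 0 → ‖x‖ ≤ 1 → ∃ n : ℤ, ‖x‖ = ‖(ϖ : K)‖ ^ n := by
      intro x hx hx1
      have hx0 : (⟨x, Valued.integer.mem_iff.mpr hx1⟩ : 𝒪[K]) ≠ 0 := by
        intro h
        exact hx (congrArg Subtype.val h)
      obtain ⟨n, u, hu⟩ := IsDiscreteValuationRing.eq_unit_mul_pow_irreducible hx0 hϖ
      refine ⟨n, ?_⟩
      have h3 : x = ((u : 𝒪[K]) : K) * (ϖ : K) ^ n := congrArg Subtype.val hu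
      rw [h3, norm_mul, norm_pow, Valued.integer.norm_coe_unit, one_mul, zpow_natCast]
    intro x hx
    rcases le_total ‖x‖ 1 with h | h
    · exact key x hx h
    · obtain ⟨n, hn⟩ := key x⁻¹ (inv_ne_zero hx) (by
        rw [norm_inv]; exact inv_le_one_of_one_le₀ h)
      refine ⟨-n, ?_⟩
      rw [zpow_neg, ← hn, norm_inv, inv_inv]
  · intro P hP hdeg hcoef
    have hlift : ∀ i, P.coeff i ∈ 𝒪[K] := fun i => Valued.integer.mem_iff.mpr (hcoef i)
    have hsub : (P.coeffs : Set K) ⊆ 𝒪[K] := by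
      intro x hx
      obtain ⟨i, -, rfl⟩ := Polynomial.mem_coeffs_iff.mp hx
      exact hlift i
    set Q : 𝒪[K][X] := P.toSubring 𝒪[K] hsub with hQ
    have hQm : Q.Monic := (Polynomial.monic_toSubring P 𝒪[K] hsub).mpr hP
    have hQd : Q.natDegree = P.natDegree := Polynomial.natDegree_toSubring P 𝒪[K] hsub
    have hQP : Q.map (algebraMap 𝒪[K] K) = P := by
      ext i
      rw [coeff_map]
      exact Polynomial.coeff_toSubring P 𝒪[K] hsub
    obtain ⟨c', hc'⟩ := IsAlgClosed.exists_root (Q.map (IsLocalRing.residue 𝒪[K])) (by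
      rw [degree_eq_natDegree (hQm.map _).ne_zero, hQm.natDegree_map, hQd]
      exact_mod_cast hdeg.ne')
    obtain ⟨c, rfl⟩ := IsLocalRing.residue_surjective c'
    refine ⟨c, Valued.integer.norm_le_one c, ?_⟩
    rw [IsRoot, eval_map, eval₂_hom, IsLocalRing.residue_eq_zero_iff] at hc'
    have h5 : ¬ IsUnit (Q.eval c) := (IsLocalRing.mem_maximalIdeal _).mp hc'
    rw [Valued.integer.isUnit_iff_norm_eq_one] at h5
    have h6 : P.eval (c : K) = ((Q.eval c : 𝒪[K]) : K) := by
      rw [← hQP, eval_map]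
      exact (Polynomial.hom_eval₂ Q (RingHom.id _) (algebraMap 𝒪[K] K) c).symm
    rw [h6]
    exact lt_of_le_of_ne (Valued.integer.norm_le_one _) h5
  · have h3 : IsUnit (2 : 𝒪[K]) := by
      by_contra h
      apply h2
      have h4 := (IsLocalRing.mem_maximalIdeal _).mpr h
      rw [← IsLocalRing.residue_eq_zero_iff, map_ofNat] at h4
      exact h4
    exact Valued.integer.isUnit_iff_norm_eq_one.mp h3

end

end Pool.Agent.H19.QBR
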