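import Pool.Agent.H19.QBR.Sqrt
import Pool.Agent.H19.QBR.Abs

/-!
# The valuation of a finite extension of the base field
-/

set_option autoImplicit false

open Polynomial

namespace Pool.Agent.H19.QBR

variable {K : Type*} [NontriviallyNormedField K] [IsUltrametricDist K] [CompleteSpace K]
variable {L : Type*} [Field L] [Algebra K L] [FiniteDimensional K L]

theorem spectralNorm_eq_zero' (x : L) (h : spectralNorm K L x = 0) : x = 0 := by
  letI : NormedField L := spectralNorm.normedField K L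
  have : ‖x‖ = 0 := h
  exact norm_eq_zero.mp this

theorem spectralNorm_pos' (x : L) (h : x ≠ 0) : 0 < spectralNorm K L x :=
  lt_of_le_of_ne (spectralNorm_nonneg x) (fun h2 => h (spectralNorm_eq_zero' x h2.symm))

theorem spectralNorm_pow_factorial (ϖ : K) (hϖ : ∀ x : K, x ≠ 0 → ∃ n : ℤ, ‖x‖ = ‖ϖ‖ ^ n)
    (x : L) (hx : x ≠ 0) :
    ∃ k : ℤ, spectralNorm K L x ^ (Module.finrank K L).factorial = ‖ϖ‖ ^ k := by
  have hint : IsIntegral K x := Algebra.IsIntegral.isIntegral x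
  have hpos : 0 < (minpoly K x).natDegree := minpoly.natDegree_pos hint
  have hle : (minpoly K x).natDegree ≤ Module.finrank K L := minpoly.natDegree_le x
  obtain ⟨m, hm⟩ := Nat.dvd_factorial hpos hle
  have h0 : (minpoly K x).coeff 0 ≠ 0 := minpoly.coeff_zero_ne_zero hint hx
  obtain ⟨n, hn⟩ := hϖ _ h0
  refine ⟨n * m, ?_⟩
  rw [hm, pow_mul, spectralNorm.spectralNorm_eq_norm_coeff_zero_rpow, ← Real.rpow_mul_natCast
    (norm_nonneg _), one_div, inv_mul_cancel₀ (by positivity), Real.rpow_one, hn, zpow_mul,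
    zpow_natCast]

theorem exists_sqVal (hK : Base K) (ϖ : K) (h0 : ϖ ≠ 0) (h1 : ‖ϖ‖ < 1)
    (hϖ : ∀ x : K, x ≠ 0 → ∃ n : ℤ, ‖x‖ = ‖ϖ‖ ^ n) (L : Type*) [Field L] [Algebra K L]
    [FiniteDimensional K L] :
    ∃ w : L → ℤ, SqVal L w ∧ w (algebraMap K L ϖ) ≠ 0 := by
  classical
  have hp : 0 < ‖ϖ‖ := norm_pos_iff.mpr h0
  choose! w hw using spectralNorm_pow_factorial (L := L) ϖ hϖ
  have hinj : ∀ a b : ℤ, ‖ϖ‖ ^ a = ‖ϖ‖ ^ b → a = b := fun a b h =>
    (zpow_right_inj₀ hp h1.ne).mp h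
  have hf : (Module.finrank K L).factorial ≠ 0 := Nat.factorial_ne_zero _
  refine ⟨w, ⟨?_, ?_, ?_⟩, ?_⟩
  · intro x y hx hy
    apply hinj
    rw [← hw _ (mul_ne_zero hx hy), spectralNorm_mul', mul_pow, hw _ hx, hw _ hy, zpow_add₀ hp.ne']
  · intro x hx hwx
    apply unit_isSquare hK x
    have h2 := hw x hx
    rw [hwx, zpow_zero] at h2
    exact (pow_eq_one_iff_of_nonneg (spectralNorm_nonneg x) hf).mp h2
  · intro h
    have h3 : algebraMap K L 2 = 0 := by rw [map_ofNat]; exact h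
    rw [map_eq_zero] at h3
    have := hK.two
    rw [h3, norm_zero] at this
    exact zero_ne_one this
  · have hx : algebraMap K L ϖ ≠ 0 := by rwa [Ne, map_eq_zero]
    have h2 := hw _ hx
    rw [spectralNorm_extends] at h2
    intro h3
    rw [h3, zpow_zero] at h2
    have := (pow_eq_one_iff_of_nonneg (norm_nonneg ϖ) hf).mp h2
    exact h1.ne this

/-- In every finite extension, for all but one exponent `M`, all nonzero elements are squares
modulo `s^(2^j) - θ / ϖ^M` for large `j`. -/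
theorem exists_sq_mod_ext (hK : Base K) (ϖ : K) (h0 : ϖ ≠ 0) (h1 : ‖ϖ‖ < 1)
    (hϖ : ∀ x : K, x ≠ 0 → ∃ n : ℤ, ‖x‖ = ‖ϖ‖ ^ n) (L : Type*) [Field L] [Algebra K L]
    [FiniteDimensional K L] (θ : L) (hθ : θ ≠ 0) :
    ∃ E : Finset ℕ, ∀ M ∉ E, ∃ j0 : ℕ, ∀ j ≥ j0, ∀ g : L, g ≠ 0 →
      ∃ R : L[X], (X ^ 2 ^ j - C (θ / algebraMap K L ϖ ^ M) : L[X]) ∣ R ^ 2 - C g := by
  obtain ⟨w, hw, hwϖ⟩ := exists_sqVal hK ϖ h0 h1 hϖ L
  have hx : algebraMap K L ϖ ≠ 0 := by rwa [Ne, map_eq_zero]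
  refine ⟨{(w θ / w (algebraMap K L ϖ)).toNat}, fun M hM => ?_⟩
  have hne : θ / algebraMap K L ϖ ^ M ≠ 0 := div_ne_zero hθ (pow_ne_zero M hx)
  apply hw.exists_sq_mod _ hne
  rw [hw.div _ _ hθ (pow_ne_zero M hx), hw.pow _ hx]
  intro h
  apply hM
  rw [Finset.mem_singleton]
  have h2 : w θ = M * w (algebraMap K L ϖ) := by omega
  rw [h2, Int.mul_ediv_cancel _ hwϖ, Int.toNat_natCast]

end Pool.Agent.H19.QBR
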